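import Pool.Agent.Helper39.SR.Main
import Mathlib.LinearAlgebra.LinearIndependent.BaseChange
import Mathlib.FieldTheory.IsAlgClosed.AlgebraicClosure

/-!
# Sums of pieces of bounded rank
-/

set_option autoImplicit false

namespace Pool.Agent.Helper39.SR

open Submodule Module Pool.Agent.Helper68.SP

/-- The sparsifier over any field. -/
theorem main_field {K : Type} [Field K] {k r : ℕ} (hk : 1 ≤ k) {E : Type} [Fintype E]
    [DecidableEq E] {D : Fin k → ℕ} (v : ∀ i, E → Fin (D i) → K)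
    (hr : ∀ S : Finset E, (∀ i, LinearIndepOn K (v i) (S : Set E)) → S.card ≤ r)
    (w : E → ℝ) {p : ℝ} (hp : 0 ≤ p) (hp1 : p ≤ 1) (L : ℕ) :
    ∃ Q : Finset E, Q.card ≤ L * r ^ k ∧
      (1 - ((r : ℝ) ^ k) ^ 2 * (1 - p) ^ L) *
        Ex (fun _ => p) (optC (fun S => ∀ i, LinearIndepOn K (v i) (S : Set E)) w) ≤
      Ex (fun _ => p) (fun R =>
        optC (fun S => ∀ i, LinearIndepOn K (v i) (S : Set E)) w (Q ∩ R)) := by
  have hiff : ∀ (i : Fin k) (S : Set E),
      LinearIndepOn (AlgebraicClosure K)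
        (fun e => algebraMap K (AlgebraicClosure K) ∘ v i e) S ↔ LinearIndepOn K (v i) S := by
    intro i S
    exact linearIndependent_algebraMap_comp_iff (R := K) (S := AlgebraicClosure K)
      (v := fun e : S => v i e)
  have h := main_inf (K := AlgebraicClosure K) hk (D := D)
    (fun i e => algebraMap K (AlgebraicClosure K) ∘ v i e)
    (fun S hS => hr S fun i => (hiff i S).1 (hS i)) w hp hp1 L
  simp only [hiff] at h
  exact h

section attained

variable {E : Type} [Fintype E] {Com : Finset E → Prop} {w : E → ℝ}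

/-- The optimum is attained. -/
theorem opt_attained (h0 : Com ∅) (A : Finset E) :
    ∃ S : Finset E, S ⊆ A ∧ Com S ∧ ∑ e ∈ S, w e = optC Com w A := by
  classical
  have hne : ({t : ℝ | ∃ S : Finset E, S ⊆ A ∧ Com S ∧ t = ∑ e ∈ S, w e}).Nonempty :=
    ⟨_, ∅, Finset.empty_subset _, h0, rfl⟩
  have hfin : ({t : ℝ | ∃ S : Finset E, S ⊆ A ∧ Com S ∧ t = ∑ e ∈ S, w e}).Finite := by
    refine Set.Finite.subset (Set.finite_range fun S : Finset E => ∑ e ∈ S, w e) ?_
    rintro t ⟨S, -, -, rfl⟩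
    exact ⟨S, rfl⟩
  obtain ⟨S, h1, h2, h3⟩ := hne.csSup_mem hfin
  exact ⟨S, h1, h2, h3.symm⟩

end attained

/-- **Sums of pieces**: the common independent sets of linear matroids, where a set is common
independent as soon as its part in each class is, and where the classes have rank at most `ρ`. -/
theorem comp {k : ℕ} (hk : 1 ≤ k) {ε : ℝ} (hε : 0 < ε) : ∃ C : ℝ, 0 < C ∧
    ∀ (K : Type) [Field K] (E : Type) [Fintype E] [DecidableEq E] (D : Fin k → ℕ)
      (v : ∀ i, E → Fin (D i) → K) (c : E → ℕ) (ρ : ℕ), 1 ≤ ρ →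
      (∀ S : Finset E, (∀ j, ∀ i, LinearIndepOn K (v i)
        ((S.filter (fun e => c e = j) : Finset E) : Set E)) →
        ∀ i, LinearIndepOn K (v i) (S : Set E)) →
      (∀ S : Finset E, (∀ i, LinearIndepOn K (v i) (S : Set E)) →
        (∀ e ∈ S, ∀ f ∈ S, c e = c f) → S.card ≤ ρ) →
      ∀ (w : E → ℝ) (p : ℝ), 0 < p → p ≤ 1 →
      ∃ Q : Finset E, (Q.card : ℝ) ≤ C / p * (ρ : ℝ) ^ (k - 1) * (1 + Real.log ρ) *
          ((sSup {n : ℕ | ∃ S : Finset E, (∀ i, LinearIndepOn K (v i) (S : Set E)) ∧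
            n = S.card} : ℕ) : ℝ) ∧
        (1 - ε) * Ex (fun _ => p)
            (optC (fun S => ∀ i, LinearIndepOn K (v i) (S : Set E)) w) ≤
          Ex (fun _ => p) (fun R =>
            optC (fun S => ∀ i, LinearIndepOn K (v i) (S : Set E)) w (Q ∩ R)) := by
  classical
  set ε' : ℝ := min ε 1 with hε'
  have hε'0 : 0 < ε' := lt_min hε one_pos
  have hε'1 : ε' ≤ 1 := min_le_right _ _
  have hlog : 0 ≤ Real.log (1 / ε') := Real.log_nonneg (by rw [le_div_iff₀ hε'0]; linarith)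
  refine ⟨2 * k + Real.log (1 / ε') + 1, by positivity, ?_⟩
  intro K _ E _ _ D v c ρ hρ hsum hrk w p hp hp1
  have hrate : IsRate (fun _ : E => p) := fun _ => ⟨hp.le, hp1⟩
  set Com : Finset E → Prop := fun S => ∀ i, LinearIndepOn K (v i) (S : Set E) with hCom
  have hC0 : Com ∅ := fun i => by simp
  have hsub : ∀ S T : Finset E, S ⊆ T → Com T → Com S := fun S T h hT i =>
    (hT i).mono (Finset.coe_subset.2 h)
  -- the pieces
  let vj : ℕ → ∀ i, E → Fin (D i) → K := fun j i e => if c e = j then v i e else 0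
  let Cj : ℕ → Finset E → Prop := fun j S => ∀ i, LinearIndepOn K (vj j i) (S : Set E)
  have hCj : ∀ j (S : Finset E), Cj j S ↔ Com S ∧ ∀ e ∈ S, c e = j := by
    intro j S
    have hcong : (∀ e ∈ S, c e = j) → ∀ i, LinearIndepOn K (vj j i) (S : Set E) ↔
        LinearIndepOn K (v i) (S : Set E) := by
      intro h i
      refine linearIndepOn_congr fun e he => ?_
      simp only [vj]
      rw [if_pos (h e he)]
    constructor
    · intro h
      have h1 : ∀ e ∈ S, c e = j := by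
        intro e he
        by_contra hne
        have h2 := (h ⟨0, hk⟩).ne_zero (i := e) (Finset.mem_coe.2 he)
        simp only [vj, if_neg hne] at h2
        exact h2 rfl
      exact ⟨fun i => (hcong h1 i).1 (h i), h1⟩
    · rintro ⟨h1, h2⟩ i
      exact (hcong h2 i).2 (h1 i)
  have hCj0 : ∀ j, Cj j ∅ := fun j i => by simp
  let J : Finset ℕ := Finset.univ.image c
  -- the union of pieces
  have hunion : ∀ T : ℕ → Finset E, (∀ j, Cj j (T j)) →
      Com (J.biUnion T) ∧ ((J : Set ℕ).PairwiseDisjoint T) := by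
    intro T hT
    refine ⟨?_, ?_⟩
    · refine hsum _ fun j => ?_
      refine hsub _ (T j) ?_ ((hCj j (T j)).1 (hT j)).1
      intro e he
      rw [Finset.mem_filter, Finset.mem_biUnion] at he
      obtain ⟨⟨j', -, hej'⟩, hej⟩ := he
      have := ((hCj j' (T j')).1 (hT j')).2 e hej'
      rw [this] at hej
      rwa [← hej]
    · intro j _ j' _ hne
      rw [Function.onFun, Finset.disjoint_left]
      intro e he he'
      have h1 := ((hCj j (T j)).1 (hT j)).2 e he
      have h2 := ((hCj j' (T j')).1 (hT j')).2 e he'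
      exact hne (h1.symm.trans h2)
  have hopt : ∀ A : Finset E, optC Com w A = ∑ j ∈ J, optC (Cj j) w A := by
    intro A
    apply le_antisymm
    · refine opt_le hC0 fun S hSA hS => ?_
      have h1 : ∑ j ∈ J, ∑ e ∈ S.filter (fun e => c e = j), w e = ∑ e ∈ S, w e :=
        Finset.sum_fiberwise_of_maps_to (fun e _ => Finset.mem_image_of_mem c (Finset.mem_univ e)) _
      rw [← h1]
      refine Finset.sum_le_sum fun j _ => ?_
      refine le_opt ((Finset.filter_subset _ _).trans hSA) ?_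
      exact (hCj j _).2 ⟨hsub _ _ (Finset.filter_subset _ _) hS, fun e he =>
        (Finset.mem_filter.1 he).2⟩
    · have h1 : ∀ j, ∃ S : Finset E, S ⊆ A ∧ Cj j S ∧ ∑ e ∈ S, w e = optC (Cj j) w A :=
        fun j => opt_attained (hCj0 j) A
      choose T hTA hTC hTw using h1
      obtain ⟨h2, h3⟩ := hunion T hTC
      rw [← Finset.sum_congr rfl fun j _ => hTw j, ← Finset.sum_biUnion h3]
      refine le_opt ?_ h2
      rw [Finset.biUnion_subset]
      exact fun j _ => hTA j
  -- the ranks of the pieces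
  let rj : ℕ → ℕ := fun j => (Finset.univ.filter (Cj j)).sup Finset.card
  have hrj : ∀ j (S : Finset E), Cj j S → S.card ≤ rj j := fun j S hS =>
    Finset.le_sup (f := Finset.card) (Finset.mem_filter.2 ⟨Finset.mem_univ S, hS⟩)
  have hrjρ : ∀ j, rj j ≤ ρ := by
    intro j
    refine Finset.sup_le fun S hS => ?_
    have h1 := (hCj j S).1 (Finset.mem_filter.1 hS).2
    exact hrk S h1.1 fun e he f hf => (h1.2 e he).trans (h1.2 f hf).symm
  have hrjatt : ∀ j, ∃ S : Finset E, Cj j S ∧ S.card = rj j := by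
    intro j
    obtain ⟨S, hS, h1⟩ := Finset.exists_mem_eq_sup (Finset.univ.filter (Cj j))
      ⟨∅, Finset.mem_filter.2 ⟨Finset.mem_univ _, hCj0 j⟩⟩ Finset.card
    exact ⟨S, (Finset.mem_filter.1 hS).2, h1.symm⟩
  have hbdd : BddAbove {n : ℕ | ∃ S : Finset E, Com S ∧ n = S.card} := by
    refine ⟨Fintype.card E, ?_⟩
    rintro n ⟨S, -, rfl⟩
    exact Finset.card_le_univ S
  have hrsum : ∑ j ∈ J, rj j ≤ sSup {n : ℕ | ∃ S : Finset E, Com S ∧ n = S.card} := by
    choose T hTC hTr using hrjatt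
    obtain ⟨h2, h3⟩ := hunion T hTC
    rw [← Finset.sum_congr rfl fun j _ => hTr j, ← Finset.card_biUnion h3]
    exact le_csSup hbdd ⟨_, h2, rfl⟩
  -- the number of layers
  have hρ1 : (1 : ℝ) ≤ ρ := by exact_mod_cast hρ
  have hρ0 : (0 : ℝ) < ρ := by linarith
  have hlρ : 0 ≤ Real.log ρ := Real.log_nonneg hρ1
  set L : ℕ := ⌈1 / p * (2 * k * Real.log ρ + Real.log (1 / ε'))⌉₊ with hL
  have hL1 : 1 / p * (2 * k * Real.log ρ + Real.log (1 / ε')) ≤ L := Nat.le_ceil _
  have hL0 : 0 ≤ 1 / p * (2 * k * Real.log ρ + Real.log (1 / ε')) := by positivity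
  have hL2 : (L : ℝ) ≤ (2 * k + Real.log (1 / ε') + 1) / p * (1 + Real.log ρ) := by
    have h1 : (L : ℝ) < 1 / p * (2 * k * Real.log ρ + Real.log (1 / ε')) + 1 :=
      Nat.ceil_lt_add_one hL0
    have h2 : (1 : ℝ) ≤ 1 / p := by rw [le_div_iff₀ hp]; linarith
    have h3 : 0 ≤ Real.log (1 / ε') * Real.log ρ := mul_nonneg hlog hlρ
    have h4 : (2 * (k : ℝ) + Real.log (1 / ε') + 1) / p * (1 + Real.log ρ) =
        1 / p * ((2 * (k : ℝ) + Real.log (1 / ε') + 1) * (1 + Real.log ρ)) := by ring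
    rw [h4]
    have h5 : 1 / p * (2 * k * Real.log ρ + Real.log (1 / ε')) + 1 ≤
        1 / p * (2 * k * Real.log ρ + Real.log (1 / ε') + 1) := by
      rw [mul_add (1 / p) (2 * k * Real.log ρ + Real.log (1 / ε')) 1]
      linarith
    have h6 : 1 / p * (2 * k * Real.log ρ + Real.log (1 / ε') + 1) ≤
        1 / p * ((2 * (k : ℝ) + Real.log (1 / ε') + 1) * (1 + Real.log ρ)) := by
      refine mul_le_mul_of_nonneg_left ?_ (by positivity)
      have hk0 : (0 : ℝ) ≤ k := Nat.cast_nonneg k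
      nlinarith
    linarith
  have hfail : ((ρ : ℝ) ^ k) ^ 2 * (1 - p) ^ L ≤ ε' := by
    have h1 : (1 - p) ^ L ≤ Real.exp (-(p * L)) := by
      have h2 : 1 - p ≤ Real.exp (-p) := by
        have := Real.add_one_le_exp (-p)
        linarith
      calc (1 - p) ^ L ≤ Real.exp (-p) ^ L := pow_le_pow_left₀ (by linarith) h2 L
        _ = Real.exp (-(p * L)) := by
            rw [← Real.exp_nat_mul]
            congr 1
            ring
    have h3 : 2 * k * Real.log ρ + Real.log (1 / ε') ≤ p * L := by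
      have := mul_le_mul_of_nonneg_left hL1 hp.le
      rw [← mul_assoc, mul_one_div_cancel hp.ne', one_mul] at this
      exact this
    have h4 : Real.exp (-(p * L)) ≤ ε' / ((ρ : ℝ) ^ k) ^ 2 := by
      have h5 : Real.exp (-(2 * k * Real.log ρ + Real.log (1 / ε'))) =
          ε' / ((ρ : ℝ) ^ k) ^ 2 := by
        rw [neg_add, Real.exp_add, ← pow_mul]
        have h6 : Real.exp (-(2 * (k : ℝ) * Real.log ρ)) = ((ρ : ℝ) ^ (k * 2))⁻¹ := by
          rw [Real.exp_neg, ← Real.exp_log (pow_pos hρ0 (k * 2)), Real.log_pow]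
          push_cast
          congr 2
          ring
        have h7 : Real.exp (-(Real.log (1 / ε'))) = ε' := by
          rw [one_div, Real.log_inv, neg_neg, Real.exp_log hε'0]
        rw [h6, h7]
        ring
      rw [← h5]
      exact Real.exp_le_exp.2 (by linarith)
    have h8 : (0 : ℝ) < ((ρ : ℝ) ^ k) ^ 2 := by positivity
    calc ((ρ : ℝ) ^ k) ^ 2 * (1 - p) ^ L ≤ ((ρ : ℝ) ^ k) ^ 2 * (ε' / ((ρ : ℝ) ^ k) ^ 2) :=
          mul_le_mul_of_nonneg_left (h1.trans h4) h8.le
      _ = ε' := by field_simp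
  -- the pieces of the sparsifier
  have hpiece : ∀ j, ∃ Q : Finset E, Q.card ≤ L * rj j ^ k ∧
      (1 - ((rj j : ℝ) ^ k) ^ 2 * (1 - p) ^ L) * Ex (fun _ => p) (optC (Cj j) w) ≤
      Ex (fun _ => p) (fun R => optC (Cj j) w (Q ∩ R)) :=
    fun j => main_field hk (vj j) (hrj j) w hp.le hp1 L
  choose Qj hQj1 hQj2 using hpiece
  refine ⟨J.biUnion Qj, ?_, ?_⟩
  · have h1 : (J.biUnion Qj).card ≤ L * (ρ ^ (k - 1) * ∑ j ∈ J, rj j) := by
      refine Finset.card_biUnion_le.trans ?_
      rw [Finset.mul_sum, Finset.mul_sum]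
      refine Finset.sum_le_sum fun j _ => (hQj1 j).trans ?_
      refine Nat.mul_le_mul_left _ ?_
      calc rj j ^ k = rj j ^ (k - 1) * rj j := by rw [← pow_succ]; congr 1; omega
        _ ≤ ρ ^ (k - 1) * rj j := Nat.mul_le_mul_right _ (Nat.pow_le_pow_left (hrjρ j) _)
    have h2 : ((J.biUnion Qj).card : ℝ) ≤ L * ((ρ : ℝ) ^ (k - 1) *
        ((sSup {n : ℕ | ∃ S : Finset E, Com S ∧ n = S.card} : ℕ) : ℝ)) := by
      have h3 : (J.biUnion Qj).card ≤ L * (ρ ^ (k - 1) *
          sSup {n : ℕ | ∃ S : Finset E, Com S ∧ n = S.card}) :=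
        h1.trans (Nat.mul_le_mul_left _ (Nat.mul_le_mul_left _ hrsum))
      exact_mod_cast h3
    refine h2.trans ?_
    calc (L : ℝ) * ((ρ : ℝ) ^ (k - 1) *
        ((sSup {n : ℕ | ∃ S : Finset E, Com S ∧ n = S.card} : ℕ) : ℝ))
        ≤ ((2 * k + Real.log (1 / ε') + 1) / p * (1 + Real.log ρ)) * ((ρ : ℝ) ^ (k - 1) *
        ((sSup {n : ℕ | ∃ S : Finset E, Com S ∧ n = S.card} : ℕ) : ℝ)) :=
          mul_le_mul_of_nonneg_right hL2 (by positivity)
      _ = _ := by ring
  · have hEx : ∀ j, 0 ≤ Ex (fun _ => p) (optC (Cj j) w) := fun j =>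
      Ex_nonneg hrate fun S => opt_nonneg (hCj0 j) S
    have h1 : Ex (fun _ => p) (optC Com w) = ∑ j ∈ J, Ex (fun _ => p) (optC (Cj j) w) := by
      rw [← Ex_sum]
      exact Ex_congr _ hopt
    rw [h1]
    have h2 : Ex (fun _ => p) (fun R => optC Com w (J.biUnion Qj ∩ R)) =
        ∑ j ∈ J, Ex (fun _ => p) (fun R => optC (Cj j) w (J.biUnion Qj ∩ R)) := by
      rw [← Ex_sum]
      exact Ex_congr _ fun R => hopt _
    rw [h2, Finset.mul_sum]
    refine Finset.sum_le_sum fun j hj => ?_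
    have h3 : (1 - ε) ≤ 1 - ((rj j : ℝ) ^ k) ^ 2 * (1 - p) ^ L := by
      have h4 : ((rj j : ℝ) ^ k) ^ 2 * (1 - p) ^ L ≤ ((ρ : ℝ) ^ k) ^ 2 * (1 - p) ^ L := by
        refine mul_le_mul_of_nonneg_right ?_ (pow_nonneg (by linarith) _)
        have h5 : (rj j : ℝ) ≤ ρ := by exact_mod_cast hrjρ j
        have h6 : (0 : ℝ) ≤ rj j := Nat.cast_nonneg _
        exact pow_le_pow_left₀ (by positivity) (pow_le_pow_left₀ h6 h5 _) _
      have h7 : ε' ≤ ε := min_le_left _ _
      linarith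
    refine (mul_le_mul_of_nonneg_right h3 (hEx j)).trans ((hQj2 j).trans ?_)
    refine Ex_mono hrate fun R => opt_mono (hCj0 j) ?_
    exact Finset.inter_subset_inter_right (Finset.subset_biUnion_of_mem Qj hj)

end Pool.Agent.Helper39.SR
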