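import Pool.Agent.Helper39.SR.GenMain
import Pool.Agent.Helper39.SR.Comp

/-!
# Sums of pieces of bounded rank: arbitrary matroids
-/

set_option autoImplicit false

namespace Pool.Agent.Helper39.SR

open Pool.Agent.Helper68.SP

/-- Sums of pieces, abstractly. -/
theorem comp_abs {E : Type} [Fintype E] [DecidableEq E] (Com : Finset E → Prop) (hC0 : Com ∅)
    (hsub : ∀ S T : Finset E, S ⊆ T → Com T → Com S) (c : E → ℕ)
    (hsum : ∀ S : Finset E, (∀ j, Com (S.filter (fun e => c e = j))) → Com S)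
    (w : E → ℝ) {p a d : ℝ} (hp : 0 ≤ p) (hp1 : p ≤ 1) (hd : 0 ≤ d)
    (hpiece : ∀ j, ∃ Q : Finset E, (Q.card : ℝ) ≤ d ∧
      a * Ex (fun _ => p) (optC (fun S => Com S ∧ ∀ e ∈ S, c e = j) w) ≤
        Ex (fun _ => p) (fun R => optC (fun S => Com S ∧ ∀ e ∈ S, c e = j) w (Q ∩ R))) :
    ∃ Q : Finset E, (Q.card : ℝ) ≤ d * ((sSup {n : ℕ | ∃ S : Finset E, Com S ∧
        n = S.card} : ℕ) : ℝ) ∧
      a * Ex (fun _ => p) (optC Com w) ≤ Ex (fun _ => p) (fun R => optC Com w (Q ∩ R)) := by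
  classical
  have hrate : IsRate (fun _ : E => p) := fun _ => ⟨hp, hp1⟩
  let Cj : ℕ → Finset E → Prop := fun j S => Com S ∧ ∀ e ∈ S, c e = j
  have hCj0 : ∀ j, Cj j ∅ := fun j => ⟨hC0, fun e he => absurd he (Finset.notMem_empty e)⟩
  let J : Finset ℕ := Finset.univ.image c
  have hunion : ∀ T : ℕ → Finset E, (∀ j, Cj j (T j)) →
      Com (J.biUnion T) ∧ ((J : Set ℕ).PairwiseDisjoint T) := by
    intro T hT
    refine ⟨?_, ?_⟩
    · refine hsum _ fun j => ?_
      refine hsub _ (T j) ?_ (hT j).1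
      intro e he
      rw [Finset.mem_filter, Finset.mem_biUnion] at he
      obtain ⟨⟨j', -, hej'⟩, hej⟩ := he
      have := (hT j').2 e hej'
      rw [this] at hej
      rwa [← hej]
    · intro j _ j' _ hne
      rw [Function.onFun, Finset.disjoint_left]
      intro e he he'
      exact hne (((hT j).2 e he).symm.trans ((hT j').2 e he'))
  have hopt : ∀ A : Finset E, optC Com w A = ∑ j ∈ J, optC (Cj j) w A := by
    intro A
    apply le_antisymm
    · refine opt_le hC0 fun S hSA hS => ?_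
      have h1 : ∑ j ∈ J, ∑ e ∈ S.filter (fun e => c e = j), w e = ∑ e ∈ S, w e :=
        Finset.sum_fiberwise_of_maps_to (fun e _ => Finset.mem_image_of_mem c (Finset.mem_univ e)) _
      rw [← h1]
      refine Finset.sum_le_sum fun j _ => ?_
      refine le_opt ((Finset.filter_subset _ _).trans hSA) ?_
      exact ⟨hsub _ _ (Finset.filter_subset _ _) hS, fun e he => (Finset.mem_filter.1 he).2⟩
    · have h1 : ∀ j, ∃ S : Finset E, S ⊆ A ∧ Cj j S ∧ ∑ e ∈ S, w e = optC (Cj j) w A :=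
        fun j => opt_attained (hCj0 j) A
      choose T hTA hTC hTw using h1
      obtain ⟨h2, h3⟩ := hunion T hTC
      rw [← Finset.sum_congr rfl fun j _ => hTw j, ← Finset.sum_biUnion h3]
      refine le_opt ?_ h2
      rw [Finset.biUnion_subset]
      exact fun j _ => hTA j
  let rj : ℕ → ℕ := fun j => (Finset.univ.filter (Cj j)).sup Finset.card
  have hrj : ∀ j (S : Finset E), Cj j S → S.card ≤ rj j := fun j S hS =>
    Finset.le_sup (f := Finset.card) (Finset.mem_filter.2 ⟨Finset.mem_univ S, hS⟩)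
  have hrjatt : ∀ j, ∃ S : Finset E, Cj j S ∧ S.card = rj j := by
    intro j
    obtain ⟨S, hS, h1⟩ := Finset.exists_mem_eq_sup (Finset.univ.filter (Cj j))
      ⟨∅, Finset.mem_filter.2 ⟨Finset.mem_univ _, hCj0 j⟩⟩ Finset.card
    exact ⟨S, (Finset.mem_filter.1 hS).2, h1.symm⟩
  have hbdd : BddAbove {n : ℕ | ∃ S : Finset E, Com S ∧ n = S.card} := by
    refine ⟨Fintype.card E, ?_⟩
    rintro n ⟨S, -, rfl⟩
    exact Finset.card_le_univ S
  have hrsum : ∑ j ∈ J, rj j ≤ sSup {n : ℕ | ∃ S : Finset E, Com S ∧ n = S.card} := by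
    choose T hTC hTr using hrjatt
    obtain ⟨h2, h3⟩ := hunion T hTC
    rw [← Finset.sum_congr rfl fun j _ => hTr j, ← Finset.card_biUnion h3]
    exact le_csSup hbdd ⟨_, h2, rfl⟩
  have hpiece' : ∀ j, ∃ Q : Finset E, (Q.card : ℝ) ≤ d * rj j ∧
      a * Ex (fun _ => p) (optC (Cj j) w) ≤
        Ex (fun _ => p) (fun R => optC (Cj j) w (Q ∩ R)) := by
    intro j
    rcases Nat.eq_zero_or_pos (rj j) with h0 | hpos
    · refine ⟨∅, by rw [h0]; simp, ?_⟩
      have h1 : ∀ A, optC (Cj j) w A = 0 := by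
        intro A
        apply le_antisymm
        · refine opt_le (hCj0 j) fun S _ hS => ?_
          have h2 := hrj j S hS
          rw [h0, Nat.le_zero, Finset.card_eq_zero] at h2
          rw [h2, Finset.sum_empty]
        · exact opt_nonneg (hCj0 j) A
      have h2 : Ex (fun _ => p) (optC (Cj j) w) = 0 := by
        rw [← Ex_const (E := E) (fun _ => p) 0]
        exact Ex_congr _ fun R => h1 R
      rw [h2, mul_zero]
      exact Ex_nonneg hrate fun R => (h1 _).symm.le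
    · obtain ⟨Q, hQ1, hQ2⟩ := hpiece j
      refine ⟨Q, hQ1.trans ?_, hQ2⟩
      have h1 : (1 : ℝ) ≤ rj j := by exact_mod_cast hpos
      nlinarith
  choose Qj hQj1 hQj2 using hpiece'
  refine ⟨J.biUnion Qj, ?_, ?_⟩
  · have h1 : ((J.biUnion Qj).card : ℝ) ≤ ∑ j ∈ J, ((Qj j).card : ℝ) := by
      exact_mod_cast Finset.card_biUnion_le
    refine h1.trans ((Finset.sum_le_sum fun j _ => hQj1 j).trans ?_)
    rw [← Finset.mul_sum]
    refine mul_le_mul_of_nonneg_left ?_ hd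
    exact_mod_cast hrsum
  · have h1 : Ex (fun _ => p) (optC Com w) = ∑ j ∈ J, Ex (fun _ => p) (optC (Cj j) w) := by
      rw [← Ex_sum]
      exact Ex_congr _ hopt
    rw [h1]
    have h2 : Ex (fun _ => p) (fun R => optC Com w (J.biUnion Qj ∩ R)) =
        ∑ j ∈ J, Ex (fun _ => p) (fun R => optC (Cj j) w (J.biUnion Qj ∩ R)) := by
      rw [← Ex_sum]
      exact Ex_congr _ fun R => hopt _
    rw [h2, Finset.mul_sum]
    refine Finset.sum_le_sum fun j hj => (hQj2 j).trans ?_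
    refine Ex_mono hrate fun R => opt_mono (hCj0 j) ?_
    exact Finset.inter_subset_inter_right (Finset.subset_biUnion_of_mem Qj hj)

/-- The numbers. -/
theorem numbers {k : ℕ} (hk : 1 ≤ k) {ε' : ℝ} (hε0 : 0 < ε') (hε1 : ε' ≤ 1) {ρ : ℕ}
    (hρ : 1 ≤ ρ) {p : ℝ} (hp : 0 < p) (hp1 : p ≤ 1) :
    ∃ L : ℕ, 1 ≤ L ∧
      ((L : ℝ) * ((k : ℝ) + 1) ^ (k * ρ) + 1) ^ (k * ρ + 1) * (1 - p) ^ L ≤ ε' ∧
      (L : ℝ) * ((k : ℝ) + 1) ^ (k * ρ) ≤
        (4 * (2 + k + Real.log (1 / ε')) ^ 2 * (16 * ((k : ℝ) + 1)) ^ (k + 1)) ^ ρ / p ^ 2 := by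
  set B : ℝ := Real.log (1 / ε') with hB
  have hB0 : 0 ≤ B := Real.log_nonneg (by rw [le_div_iff₀ hε0]; linarith)
  set m : ℕ := k * ρ + 1 with hm
  have hk1 : (1 : ℝ) ≤ k := by exact_mod_cast hk
  have hm1 : (1 : ℝ) ≤ m := by
    have : 1 ≤ m := by omega
    exact_mod_cast this
  set x : ℝ := (2 * m + m ^ 2 * k + B) / p with hx
  have hxp : p * x = 2 * m + m ^ 2 * k + B := by
    rw [hx]
    field_simp
  have hnum : (0 : ℝ) ≤ m ^ 2 * k := by positivity
  have hx1 : 1 ≤ x := by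
    rw [hx, le_div_iff₀ hp]
    nlinarith
  set y : ℕ := ⌈x⌉₊ with hy
  have hyx : x ≤ y := Nat.le_ceil x
  have hy2 : (y : ℝ) ≤ 2 * x := by
    have := (Nat.ceil_lt_add_one (by linarith : (0 : ℝ) ≤ x)).le
    linarith
  have hy1 : (1 : ℝ) ≤ y := hx1.trans hyx
  have hy1' : 1 ≤ y := by exact_mod_cast hy1
  have hh1 : (1 : ℝ) ≤ ((k : ℝ) + 1) ^ (k * ρ) := one_le_pow₀ (by linarith)
  refine ⟨y ^ 2, Nat.one_le_pow _ _ hy1', ?_, ?_⟩
  · have h1 : (1 - p) ^ (y ^ 2) ≤ Real.exp (-(p * (y : ℝ) ^ 2)) := by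
      have h2 : 1 - p ≤ Real.exp (-p) := by
        have := Real.add_one_le_exp (-p)
        linarith
      calc (1 - p) ^ (y ^ 2) ≤ Real.exp (-p) ^ (y ^ 2) := pow_le_pow_left₀ (by linarith) h2 _
        _ = Real.exp (-(p * (y : ℝ) ^ 2)) := by
            rw [← Real.exp_nat_mul]
            congr 1
            push_cast
            ring
    have h3 : (((y ^ 2 : ℕ) : ℝ) * ((k : ℝ) + 1) ^ (k * ρ) + 1) ≤
        Real.exp (2 * y + k * m) := by
      have h4 : (y : ℝ) ≤ Real.exp y := by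
        have := Real.add_one_le_exp (y : ℝ)
        linarith
      have h5 : (k : ℝ) + 1 ≤ Real.exp k := Real.add_one_le_exp (k : ℝ)
      have h6 : (((y ^ 2 : ℕ) : ℝ) * ((k : ℝ) + 1) ^ (k * ρ) + 1) ≤
          (y : ℝ) ^ 2 * ((k : ℝ) + 1) ^ m := by
        rw [hm, pow_succ ((k : ℝ) + 1)]
        push_cast
        have h7 : (1 : ℝ) ≤ (y : ℝ) ^ 2 := one_le_pow₀ hy1
        have h8 : (1 : ℝ) ≤ (y : ℝ) ^ 2 * ((k : ℝ) + 1) ^ (k * ρ) := by nlinarith
        nlinarith
      refine h6.trans ?_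
      calc (y : ℝ) ^ 2 * ((k : ℝ) + 1) ^ m ≤ Real.exp y ^ 2 * Real.exp k ^ m := by
            refine mul_le_mul (pow_le_pow_left₀ (by linarith) h4 2)
              (pow_le_pow_left₀ (by linarith) h5 m) (by positivity) (by positivity)
        _ = Real.exp (2 * y + k * m) := by
            rw [← Real.exp_nat_mul, ← Real.exp_nat_mul, ← Real.exp_add]
            congr 1
            push_cast
            ring
    have h9 : (((y ^ 2 : ℕ) : ℝ) * ((k : ℝ) + 1) ^ (k * ρ) + 1) ^ m ≤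
        Real.exp (m * (2 * y + k * m)) := by
      refine (pow_le_pow_left₀ (by positivity) h3 m).trans ?_
      rw [← Real.exp_nat_mul]
    have h10 : 2 * m * y + m ^ 2 * k + B ≤ p * (y : ℝ) ^ 2 := by
      have h11 : (2 * m + m ^ 2 * k + B) * y ≤ p * (y : ℝ) ^ 2 := by
        rw [← hxp]
        have : p * x * y ≤ p * y * y := by
          refine mul_le_mul_of_nonneg_right (mul_le_mul_of_nonneg_left hyx hp.le) (by linarith)
        calc p * x * y ≤ p * y * y := this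
          _ = p * (y : ℝ) ^ 2 := by ring
      have h12 : (m : ℝ) ^ 2 * k ≤ m ^ 2 * k * y := le_mul_of_one_le_right hnum hy1
      have h13 : B ≤ B * y := le_mul_of_one_le_right hB0 hy1
      nlinarith
    calc (((y ^ 2 : ℕ) : ℝ) * ((k : ℝ) + 1) ^ (k * ρ) + 1) ^ m * (1 - p) ^ (y ^ 2)
        ≤ Real.exp (m * (2 * y + k * m)) * Real.exp (-(p * (y : ℝ) ^ 2)) :=
          mul_le_mul h9 h1 (pow_nonneg (by linarith) _) (Real.exp_pos _).le
      _ = Real.exp (m * (2 * y + k * m) + -(p * (y : ℝ) ^ 2)) := by rw [Real.exp_add]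
      _ ≤ Real.exp (-B) := by
          refine Real.exp_le_exp.2 ?_
          nlinarith
      _ = ε' := by
          rw [hB, one_div, Real.log_inv, neg_neg, Real.exp_log hε0]
  · set A : ℝ := 4 * (2 + k + B) ^ 2 with hA
    set D : ℝ := 16 * ((k : ℝ) + 1) with hD
    have hD1 : 1 ≤ D := by rw [hD]; linarith
    have hA1 : 1 ≤ A := by
      rw [hA]
      nlinarith
    have hmm : (m : ℝ) ^ 4 ≤ 16 ^ m := by
      have h1 : (m : ℝ) ≤ 2 ^ m := by exact_mod_cast (Nat.lt_two_pow_self (n := m)).le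
      calc (m : ℝ) ^ 4 ≤ (2 ^ m) ^ 4 := pow_le_pow_left₀ (by linarith) h1 4
        _ = 16 ^ m := by rw [← pow_mul, mul_comm, pow_mul]; norm_num
    have hxle : x ≤ m ^ 2 * (2 + k + B) / p := by
      rw [hx]
      refine div_le_div_of_nonneg_right ?_ hp.le
      have h1 : (m : ℝ) ≤ m ^ 2 := by nlinarith
      have h2 : B ≤ m ^ 2 * B := le_mul_of_one_le_left hB0 (one_le_pow₀ hm1)
      nlinarith
    have hL : (((y ^ 2 : ℕ) : ℝ)) ≤ A * m ^ 4 / p ^ 2 := by
      push_cast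
      have h1 : (y : ℝ) ≤ 2 * (m ^ 2 * (2 + k + B) / p) := hy2.trans (by linarith)
      calc (y : ℝ) ^ 2 ≤ (2 * (m ^ 2 * (2 + k + B) / p)) ^ 2 :=
            pow_le_pow_left₀ (by linarith) h1 2
        _ = A * m ^ 4 / p ^ 2 := by rw [hA]; field_simp; ring
    have hhm : ((k : ℝ) + 1) ^ (k * ρ) ≤ ((k : ℝ) + 1) ^ m :=
      pow_le_pow_right₀ (by linarith) (by omega)
    have hmρ : m ≤ (k + 1) * ρ := by
      rw [hm]
      nlinarith
    calc (((y ^ 2 : ℕ) : ℝ)) * ((k : ℝ) + 1) ^ (k * ρ)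
        ≤ (A * m ^ 4 / p ^ 2) * ((k : ℝ) + 1) ^ m :=
          mul_le_mul hL hhm (by positivity) (by positivity)
      _ ≤ (A * 16 ^ m / p ^ 2) * ((k : ℝ) + 1) ^ m := by
          refine mul_le_mul_of_nonneg_right ?_ (by positivity)
          refine div_le_div_of_nonneg_right ?_ (by positivity)
          exact mul_le_mul_of_nonneg_left hmm (by positivity)
      _ = A * D ^ m / p ^ 2 := by rw [hD, mul_pow]; ring
      _ ≤ A ^ ρ * D ^ ((k + 1) * ρ) / p ^ 2 := by
          refine div_le_div_of_nonneg_right ?_ (by positivity)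
          refine mul_le_mul ?_ (pow_le_pow_right₀ hD1 hmρ) (by positivity) (by positivity)
          calc A = A ^ 1 := (pow_one A).symm
            _ ≤ A ^ ρ := pow_le_pow_right₀ hA1 hρ
      _ = (A * D ^ (k + 1)) ^ ρ / p ^ 2 := by rw [mul_pow A, ← pow_mul D]

/-- **Sums of pieces of bounded rank**, arbitrary matroids. -/
theorem comp_gen {k : ℕ} (hk : 1 ≤ k) {ε : ℝ} (hε : 0 < ε) : ∃ C : ℝ, 0 < C ∧
    ∀ (E : Type) [Fintype E] [DecidableEq E] (M : Fin k → Matroid E) (c : E → ℕ) (ρ : ℕ),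
      1 ≤ ρ →
      (∀ S : Finset E, (∀ j, ∀ i, (M i).Indep
        ((S.filter (fun e => c e = j) : Finset E) : Set E)) → ∀ i, (M i).Indep (S : Set E)) →
      (∀ S : Finset E, (∀ i, (M i).Indep (S : Set E)) →
        (∀ e ∈ S, ∀ f ∈ S, c e = c f) → S.card ≤ ρ) →
      ∀ (w : E → ℝ) (p : ℝ), 0 < p → p ≤ 1 →
      ∃ Q : Finset E, (Q.card : ℝ) ≤ C ^ ρ / p ^ 2 *
          ((sSup {n : ℕ | ∃ S : Finset E, (∀ i, (M i).Indep (S : Set E)) ∧
            n = S.card} : ℕ) : ℝ) ∧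
        (1 - ε) * Ex (fun _ => p) (optC (fun S => ∀ i, (M i).Indep (S : Set E)) w) ≤
          Ex (fun _ => p) (fun R =>
            optC (fun S => ∀ i, (M i).Indep (S : Set E)) w (Q ∩ R)) := by
  classical
  set ε' : ℝ := min ε 1 with hε'
  have hε'0 : 0 < ε' := lt_min hε one_pos
  have hε'1 : ε' ≤ 1 := min_le_right _ _
  have hlog : 0 ≤ Real.log (1 / ε') := Real.log_nonneg (by rw [le_div_iff₀ hε'0]; linarith)
  refine ⟨4 * (2 + k + Real.log (1 / ε')) ^ 2 * (16 * ((k : ℝ) + 1)) ^ (k + 1),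
    by positivity, ?_⟩
  intro E _ _ M c ρ hρ hsum hrk w p hp hp1
  obtain ⟨L, hL1, hL2, hL3⟩ := numbers hk hε'0 hε'1 hρ hp hp1
  have hrate : IsRate (fun _ : E => p) := fun _ => ⟨hp.le, hp1⟩
  refine comp_abs (a := 1 - ε)
    (d := (4 * (2 + k + Real.log (1 / ε')) ^ 2 * (16 * ((k : ℝ) + 1)) ^ (k + 1)) ^ ρ / p ^ 2)
    (fun S => ∀ i, (M i).Indep (S : Set E)) (fun i => by simp)
    (fun S T h hT i => (hT i).subset (Finset.coe_subset.2 h)) c hsum w hp.le hp1
    (by positivity) fun j => ?_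
  let N : Fin k → Matroid E := fun i => ((M i).restrict {e | c e = j}).restrict Set.univ
  have hN : ∀ S : Finset E, (∀ i, (N i).Indep (S : Set E)) ↔
      (∀ i, (M i).Indep (S : Set E)) ∧ ∀ e ∈ S, c e = j := by
    intro S
    simp only [N, Matroid.restrict_indep_iff, Set.subset_univ, and_true]
    constructor
    · intro h
      exact ⟨fun i => (h i).1, fun e he => (h ⟨0, hk⟩).2 (Finset.mem_coe.2 he)⟩
    · rintro ⟨h1, h2⟩ i
      exact ⟨h1 i, fun e he => h2 e (Finset.mem_coe.1 he)⟩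
  obtain ⟨Q, hQ1, hQ2⟩ := main_gen (r := ρ) hk N (fun i => by simp [N]) (fun S hS => by
      obtain ⟨h1, h2⟩ := (hN S).1 hS
      exact hrk S h1 fun e he f hf => (h2 e he).trans (h2 f hf).symm) w hp.le hp1 L hL1
  simp only [hN] at hQ2
  refine ⟨Q, ?_, ?_⟩
  · refine le_trans ?_ hL3
    calc (Q.card : ℝ) ≤ ((L * (k + 1) ^ (k * ρ) : ℕ) : ℝ) := by exact_mod_cast hQ1
      _ = _ := by push_cast; ring
  · refine le_trans (mul_le_mul_of_nonneg_right ?_ ?_) hQ2
    · have : ε' ≤ ε := min_le_left _ _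
      linarith
    · exact Ex_nonneg hrate fun S => opt_nonneg ⟨fun i => by simp, by simp⟩ S

end Pool.Agent.Helper39.SR
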