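import Mathlib
import Pool.Agent.Helper39.SR.GenComp

/-!
# Sparsifiers for the intersection of `k` arbitrary matroids of small rank
-/

set_option autoImplicit false

namespace Pool.Agent.Helper39.SR.AllMatroidsThm

/-- The common independent sets. -/
def Common {E : Type} {k : ℕ} (M : Fin k → Matroid E) (S : Finset E) : Prop :=
  ∀ i, (M i).Indep (S : Set E)

/-- `OPT(A)`: the largest weight of a common independent set contained in `A`. -/
noncomputable def opt {E : Type} {k : ℕ} (M : Fin k → Matroid E) (w : E → ℝ)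
    (A : Finset E) : ℝ :=
  sSup {t : ℝ | ∃ S : Finset E, S ⊆ A ∧ Common M S ∧ t = ∑ e ∈ S, w e}

/-- The rank: the largest cardinality of a common independent set. -/
noncomputable def rank {E : Type} {k : ℕ} (M : Fin k → Matroid E) : ℕ :=
  sSup {n : ℕ | ∃ S : Finset E, Common M S ∧ n = S.card}

/-- The expectation of `f R` for the random set `R` which contains each element of `E`
independently with probability `p`. -/
noncomputable def expect {E : Type} [Fintype E] (p : ℝ) (f : Finset E → ℝ) : ℝ :=
  ∑ R : Finset E, p ^ R.card * (1 - p) ^ (Fintype.card E - R.card) * f R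

/-- The instance `M` is a sum of pieces of rank at most `ρ`, the pieces being the classes of the
map `c`: a set is common independent as soon as its intersection with each class is, and a common
independent set contained in one class has at most `ρ` elements.  (With a constant `c` this says
that the rank of the instance is at most `ρ`.) -/
def IsSum {E : Type} [DecidableEq E] {k : ℕ} (M : Fin k → Matroid E) (c : E → ℕ)
    (ρ : ℕ) : Prop :=
  (∀ S : Finset E, (∀ j, Common M (S.filter (fun e => c e = j))) → Common M S) ∧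
  ∀ S : Finset E, Common M S → (∀ e ∈ S, ∀ f ∈ S, c e = c f) → S.card ≤ ρ

open Pool.Agent.Helper68.SP

private lemma expect_eq {E : Type} [Fintype E] [DecidableEq E] (p : ℝ) (f : Finset E → ℝ) :
    expect p f = Ex (fun _ => p) f := by
  unfold expect Ex wt
  refine Finset.sum_congr rfl fun R _ => ?_
  congr 1
  rw [← Finset.prod_sdiff (Finset.subset_univ R)]
  have h1 : ∏ e ∈ Finset.univ \ R, (if e ∈ R then p else 1 - p) =
      (1 - p) ^ (Fintype.card E - R.card) := by
    rw [Finset.prod_congr rfl (g := fun _ => 1 - p)]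
    · rw [Finset.prod_const, Finset.card_sdiff_of_subset (Finset.subset_univ R),
        Finset.card_univ]
    · intro e he
      rw [if_neg (Finset.mem_sdiff.1 he).2]
  have h2 : ∏ e ∈ R, (if e ∈ R then p else 1 - p) = p ^ R.card := by
    rw [Finset.prod_congr rfl (g := fun _ => p)]
    · rw [Finset.prod_const]
    · intro e he
      rw [if_pos he]
  rw [h1, h2, mul_comm]

/-- **Theorem.** For all `k ≥ 1` and `ε > 0` there is a constant `C` such that for arbitrary
matroids `M_1, ..., M_k` on a finite set `E` which form a sum of pieces of rank at most `ρ`, all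
real weights and all `p ∈ (0, 1]`, some set `Q` with at most `(C ^ ρ / p ^ 2) * rank` elements
satisfies `E OPT(Q ∩ R) ≥ (1 - ε) * E OPT(R)`. -/
theorem result (k : ℕ) (hk : 1 ≤ k) (ε : ℝ) (hε : 0 < ε) :
    ∃ C : ℝ, 0 < C ∧ ∀ (E : Type) [Fintype E] [DecidableEq E] (M : Fin k → Matroid E)
      (c : E → ℕ) (ρ : ℕ), 1 ≤ ρ → IsSum M c ρ →
      ∀ (w : E → ℝ) (p : ℝ), 0 < p → p ≤ 1 →
      ∃ Q : Finset E, (Q.card : ℝ) ≤ C ^ ρ / p ^ 2 * (rank M : ℝ) ∧
        (1 - ε) * expect p (opt M w) ≤ expect p (fun R => opt M w (Q ∩ R)) := by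
  classical
  obtain ⟨C, hC, hmain⟩ := Pool.Agent.Helper39.SR.comp_gen hk hε
  refine ⟨C, hC, ?_⟩
  intro E _ instE M c ρ hρ hsum w p hp hp1
  obtain ⟨Q, hQ1, hQ2⟩ := hmain E M c ρ hρ (fun S hS => hsum.1 S hS)
    (fun S hS h => hsum.2 S hS h) w p hp hp1
  refine ⟨Q, hQ1, ?_⟩
  rw [expect_eq, expect_eq]
  exact hQ2

end Pool.Agent.Helper39.SR.AllMatroidsThm
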