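import Pool.Agent.Helper39.SR.GenMain
import Mathlib.Combinatorics.Matroid.Circuit
import Mathlib.Combinatorics.Hall.Basic

/-!
# Augmentations: one for nothing, two for one
-/

set_option autoImplicit false

namespace Pool.Agent.Helper39.SR

variable {E : Type} [Fintype E] [DecidableEq E]

/-- Exchange: an injection from `S \ P` to `P \ S` along exchangeable pairs. -/
theorem exch (M : Matroid E) {P S : Finset E} (hP : M.Indep (P : Set E))
    (hS : M.Indep (S : Set E)) (hspan : (S : Set E) ⊆ M.closure (P : Set E)) :
    ∃ φ : E → E, (∀ e ∈ S \ P, φ e ∈ P \ S ∧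
      M.Indep ((insert e (P.erase (φ e)) : Finset E) : Set E)) ∧
      Set.InjOn φ ((S \ P : Finset E) : Set E) := by
  classical
  let T : {e // e ∈ S \ P} → Finset E := fun e =>
    (P \ S).filter fun y => M.Indep ((insert e.1 (P.erase y) : Finset E) : Set E)
  have hall : ∀ A : Finset {e // e ∈ S \ P}, A.card ≤ (A.biUnion T).card := by
    intro A
    set N : Finset E := A.biUnion T with hN
    have hNP : N ⊆ P \ S := by
      rw [hN, Finset.biUnion_subset]
      exact fun a _ => Finset.filter_subset _ _
    set Z : Finset E := (P ∩ S) ∪ N with hZ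
    set A' : Finset E := A.map ⟨Subtype.val, Subtype.val_injective⟩ with hA'
    have hA'S : A' ⊆ S \ P := by
      intro e he
      rw [hA', Finset.mem_map] at he
      obtain ⟨a, -, rfl⟩ := he
      exact a.2
    have hcl : ∀ e ∈ A', e ∈ M.closure (Z : Set E) := by
      intro e he
      have heSP := Finset.mem_sdiff.1 (hA'S he)
      have hecl : e ∈ M.closure (P : Set E) := hspan (Finset.mem_coe.2 heSP.1)
      have heP : e ∉ (P : Set E) := fun h => heSP.2 (Finset.mem_coe.1 h)
      have hC := hP.fundCircuit_isCircuit hecl heP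
      have h1 : e ∈ M.closure (M.fundCircuit e P \ {e}) :=
        hC.mem_closure_sdiff_singleton_of_mem (M.mem_fundCircuit e _)
      refine M.closure_subset_closure ?_ h1
      rintro y ⟨hyC, hye⟩
      have hye' : y ≠ e := hye
      have hyP : y ∈ P := by
        have := M.fundCircuit_subset_insert e (P : Set E) hyC
        rcases Set.mem_insert_iff.1 this with h | h
        · exact absurd h hye'
        · exact Finset.mem_coe.1 h
      rw [Finset.mem_coe, hZ, Finset.mem_union]
      by_cases hyS : y ∈ S
      · exact Or.inl (Finset.mem_inter.2 ⟨hyP, hyS⟩)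
      · refine Or.inr ?_
        rw [hA', Finset.mem_map] at he
        obtain ⟨a, ha, hae⟩ := he
        rw [hN, Finset.mem_biUnion]
        refine ⟨a, ha, Finset.mem_filter.2 ⟨Finset.mem_sdiff.2 ⟨hyP, hyS⟩, ?_⟩⟩
        have hae' : a.1 = e := hae
        rw [hae']
        have h2 := (hP.mem_fundCircuit_iff hecl heP).1 hyC
        have h3 : ((insert e (P.erase y) : Finset E) : Set E) = insert e (P : Set E) \ {y} := by
          rw [Finset.coe_insert, Finset.coe_erase, Set.insert_sdiff_singleton_comm hye'.symm]
        rw [h3]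
        exact h2
    have hind : M.Indep (((P ∩ S) ∪ A' : Finset E) : Set E) := by
      refine hS.subset (Finset.coe_subset.2 (Finset.union_subset Finset.inter_subset_right ?_))
      exact hA'S.trans Finset.sdiff_subset
    have hZE : (Z : Set E) ⊆ M.E := by
      refine subset_trans ?_ hP.subset_ground
      rw [Finset.coe_subset, hZ]
      exact Finset.union_subset Finset.inter_subset_left (hNP.trans Finset.sdiff_subset)
    have hle := card_le_of_subset_closure M hind (T := Z) (by
      intro e he
      rw [Finset.mem_coe, Finset.mem_union] at he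
      rcases he with he | he
      · exact M.mem_closure_of_mem (Finset.mem_coe.2 (Finset.mem_union_left _ he)) hZE
      · exact hcl e he)
    have hdisj : Disjoint (P ∩ S) A' := by
      rw [Finset.disjoint_left]
      intro e he he'
      exact (Finset.mem_sdiff.1 (hA'S he')).2 (Finset.mem_inter.1 he).1
    rw [Finset.card_union_of_disjoint hdisj] at hle
    have h4 : Z.card ≤ (P ∩ S).card + N.card := Finset.card_union_le _ _
    have h5 : A'.card = A.card := Finset.card_map _
    omega
  obtain ⟨f, hf1, hf2⟩ := (Finset.all_card_le_biUnion_card_iff_exists_injective T).1 hall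
  refine ⟨fun e => if h : e ∈ S \ P then f ⟨e, h⟩ else e, ?_, ?_⟩
  · intro e he
    have h0 := hf2 ⟨e, he⟩
    rw [Finset.mem_filter] at h0
    simp only [dif_pos he]
    exact h0
  · intro a ha b hb hab
    have ha' := Finset.mem_coe.1 ha
    have hb' := Finset.mem_coe.1 hb
    simp only [dif_pos ha', dif_pos hb'] at hab
    exact congrArg Subtype.val (hf1 hab)

/-- **The augmentation lemma.** -/
theorem augment {k : ℕ} (hk : 1 ≤ k) (M : Fin k → Matroid E) (hE : ∀ i, (M i).E = Set.univ)
    {B S : Finset E} (hB : ∀ i, (M i).Indep (B : Set E)) (hS : ∀ i, (M i).Indep (S : Set E))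
    (hlt : (k + 1) * B.card < 2 * S.card) :
    ∃ X : Finset E, X ⊆ S \ B ∧ X.Nonempty ∧ X.card ≤ 2 ∧ ∃ B' : Finset E,
      (∀ i, (M i).Indep (B' : Set E)) ∧ B' ⊆ B ∪ X ∧ B.card < B'.card := by
  classical
  have hP : ∀ i, ∃ P : Finset E, B ⊆ P ∧ P ⊆ B ∪ S ∧ (M i).Indep (P : Set E) ∧
      (S : Set E) ⊆ (M i).closure (P : Set E) := by
    intro i
    obtain ⟨J, hJ, hBJ⟩ := (hB i).subset_isBasis_of_subset
      (X := ((B ∪ S : Finset E) : Set E)) (Finset.coe_subset.2 Finset.subset_union_left)
      (by rw [hE i]; exact Set.subset_univ _)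
    lift J to Finset E using Set.toFinite J
    refine ⟨J, Finset.coe_subset.1 hBJ, Finset.coe_subset.1 hJ.subset, hJ.indep, ?_⟩
    exact (Finset.coe_subset.2 Finset.subset_union_right).trans hJ.subset_closure
  choose P hBP hPU hPi hPcl using hP
  have hφ := fun i => exch (M i) (hPi i) (hS i) (hPcl i)
  choose φ hφ1 hφ2 using hφ
  have hSP : ∀ i, S \ P i ⊆ S \ B := fun i => Finset.sdiff_subset_sdiff subset_rfl (hBP i)
  have hPS : ∀ i, P i \ S ⊆ B \ S := by
    intro i e he
    rw [Finset.mem_sdiff] at he ⊢
    refine ⟨?_, he.2⟩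
    rcases Finset.mem_union.1 (hPU i he.1) with h | h
    · exact h
    · exact absurd h he.2
  have hcardD : ∀ i, (S \ P i).card ≤ (B \ S).card := by
    intro i
    refine Finset.card_le_card_of_injOn (φ i) ?_ (hφ2 i)
    intro e he
    exact Finset.mem_coe.2 (hPS i (hφ1 i e (Finset.mem_coe.1 he)).1)
  -- an element addable everywhere
  by_cases hadd : ∃ e ∈ S \ B, ∀ i, e ∈ P i
  · obtain ⟨e, he, heP⟩ := hadd
    have heB := (Finset.mem_sdiff.1 he).2
    refine ⟨{e}, by simpa using he, Finset.singleton_nonempty e, by simp, insert e B,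
      ?_, ?_, ?_⟩
    · intro i
      exact (hPi i).subset (Finset.coe_subset.2 (Finset.insert_subset (heP i) (hBP i)))
    · intro x hx
      rw [Finset.mem_insert] at hx
      rw [Finset.mem_union, Finset.mem_singleton]
      tauto
    · rw [Finset.card_insert_of_notMem heB]
      exact Nat.lt_succ_self _
  · push Not at hadd
    let cf : E → ℕ := fun e => (Finset.univ.filter fun i => e ∉ P i).card
    have hcf1 : ∀ e ∈ S \ B, 1 ≤ cf e := by
      intro e he
      obtain ⟨i, hi⟩ := hadd e he
      exact Finset.card_pos.2 ⟨i, Finset.mem_filter.2 ⟨Finset.mem_univ i, hi⟩⟩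
    have hsum : ∑ e ∈ S \ B, cf e ≤ k * (B \ S).card := by
      have h1 : ∑ e ∈ S \ B, cf e = ∑ i : Fin k, (S \ P i).card := by
        have h2 : ∀ e, cf e = ∑ i : Fin k, if e ∉ P i then 1 else 0 := by
          intro e
          simp only [cf]
          rw [Finset.card_filter]
        rw [Finset.sum_congr rfl fun e _ => h2 e, Finset.sum_comm]
        refine Finset.sum_congr rfl fun i _ => ?_
        rw [← Finset.card_filter]
        congr 1
        ext e
        simp only [Finset.mem_filter, Finset.mem_sdiff]
        constructor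
        · rintro ⟨⟨h3, -⟩, h4⟩
          exact ⟨h3, h4⟩
        · rintro ⟨h3, h4⟩
          exact ⟨⟨h3, fun h5 => h4 (hBP i h5)⟩, h4⟩
      rw [h1]
      refine (Finset.sum_le_sum fun i _ => hcardD i).trans ?_
      rw [Finset.sum_const, Finset.card_univ, Fintype.card_fin, smul_eq_mul]
    let U : Finset E := (S \ B).filter fun e => cf e = 1
    have hU : 2 * (S \ B).card ≤ U.card + ∑ e ∈ S \ B, cf e := by
      have h1 : U.card = ∑ e ∈ S \ B, if cf e = 1 then 1 else 0 := by
        simp only [U]
        rw [Finset.card_filter]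
      rw [h1, ← Finset.sum_add_distrib, mul_comm, ← smul_eq_mul, ← Finset.sum_const]
      refine Finset.sum_le_sum fun e he => ?_
      have := hcf1 e he
      split_ifs with h
      · omega
      · omega
    have hUbig : (B \ S).card < U.card := by
      have h1 : (S \ B).card + (S ∩ B).card = S.card := Finset.card_sdiff_add_card_inter S B
      have h2 : (B \ S).card + (B ∩ S).card = B.card := Finset.card_sdiff_add_card_inter B S
      rw [Finset.inter_comm B S] at h2
      have h3 : (k + 1) * B.card = k * (B \ S).card + (B \ S).card + k * (S ∩ B).card +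
          (S ∩ B).card := by
        rw [← h2]
        ring
      have h4 : (S ∩ B).card ≤ k * (S ∩ B).card := Nat.le_mul_of_pos_left _ hk
      omega
    have hl : ∀ e ∈ U, ∃ l : Fin k, e ∉ P l ∧ ∀ i, i ≠ l → e ∈ P i := by
      intro e he
      have h1 : cf e = 1 := (Finset.mem_filter.1 he).2
      simp only [cf] at h1
      rw [Finset.card_eq_one] at h1
      obtain ⟨l, hl⟩ := h1
      have h2 : l ∈ Finset.univ.filter fun i => e ∉ P i := by
        rw [hl]
        exact Finset.mem_singleton_self l
      refine ⟨l, (Finset.mem_filter.1 h2).2, fun i hi => ?_⟩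
      by_contra h3
      have h4 : i ∈ Finset.univ.filter fun i => e ∉ P i :=
        Finset.mem_filter.2 ⟨Finset.mem_univ i, h3⟩
      rw [hl, Finset.mem_singleton] at h4
      exact hi h4
    have hl' : ∃ l : E → Fin k, ∀ e ∈ U, e ∉ P (l e) ∧ ∀ i, i ≠ l e → e ∈ P i := by
      refine ⟨fun e => if h : e ∈ U then (hl e h).choose else ⟨0, hk⟩, fun e he => ?_⟩
      simp only [dif_pos he]
      exact (hl e he).choose_spec
    obtain ⟨l, hl1⟩ := hl'
    have hUS : ∀ e ∈ U, e ∈ S \ B := fun e he => (Finset.mem_filter.1 he).1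
    have hUD : ∀ e ∈ U, e ∈ S \ P (l e) := fun e he =>
      Finset.mem_sdiff.2 ⟨(Finset.mem_sdiff.1 (hUS e he)).1, (hl1 e he).1⟩
    obtain ⟨e, he, e', he', hne, hφe⟩ := Finset.exists_ne_map_eq_of_card_lt_of_maps_to
      (s := U) (t := B \ S) (f := fun e => φ (l e) e) hUbig
      (fun e he => Finset.mem_coe.2 (hPS _ (hφ1 (l e) e (hUD e (Finset.mem_coe.1 he))).1))
    have hlne : l e ≠ l e' := by
      intro h
      have hφe' : φ (l e) e = φ (l e') e' := hφe
      rw [← h] at hφe'
      refine hne (hφ2 (l e) (Finset.mem_coe.2 (hUD e he)) (Finset.mem_coe.2 ?_) hφe')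
      rw [h]
      exact hUD e' he'
    set y : E := φ (l e) e with hy
    have hy' : φ (l e') e' = y := hφe.symm
    have hyBS : y ∈ B \ S := hPS _ (hφ1 (l e) e (hUD e he)).1
    have hyB := (Finset.mem_sdiff.1 hyBS).1
    have hyS := (Finset.mem_sdiff.1 hyBS).2
    have heS := (Finset.mem_sdiff.1 (hUS e he)).1
    have heB := (Finset.mem_sdiff.1 (hUS e he)).2
    have heS' := (Finset.mem_sdiff.1 (hUS e' he')).1
    have heB' := (Finset.mem_sdiff.1 (hUS e' he')).2
    have hI1 : (M (l e)).Indep ((insert e ((P (l e)).erase y) : Finset E) : Set E) :=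
      (hφ1 (l e) e (hUD e he)).2
    have hI2 : (M (l e')).Indep ((insert e' ((P (l e')).erase y) : Finset E) : Set E) := by
      have := (hφ1 (l e') e' (hUD e' he')).2
      rwa [hy'] at this
    refine ⟨{e, e'}, ?_, ⟨e, by simp⟩, Finset.card_le_two, insert e (insert e' (B.erase y)),
      ?_, ?_, ?_⟩
    · intro x hx
      rw [Finset.mem_insert, Finset.mem_singleton] at hx
      rcases hx with rfl | rfl
      · exact hUS _ he
      · exact hUS _ he'
    · intro i
      by_cases h1 : i = l e
      · subst h1
        refine hI1.subset (Finset.coe_subset.2 ?_)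
        refine Finset.insert_subset_insert e (Finset.insert_subset ?_ ?_)
        · refine Finset.mem_erase.2 ⟨fun h => hyS (h ▸ heS'), (hl1 e' he').2 _ hlne⟩
        · exact Finset.erase_subset_erase y (hBP _)
      · by_cases h2 : i = l e'
        · subst h2
          refine hI2.subset (Finset.coe_subset.2 ?_)
          rw [Finset.insert_comm]
          refine Finset.insert_subset_insert e' (Finset.insert_subset ?_ ?_)
          · refine Finset.mem_erase.2 ⟨fun h => hyS (h ▸ heS), (hl1 e he).2 _ h1⟩
          · exact Finset.erase_subset_erase y (hBP _)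
        · refine (hPi i).subset (Finset.coe_subset.2 ?_)
          refine Finset.insert_subset ((hl1 e he).2 i h1)
            (Finset.insert_subset ((hl1 e' he').2 i h2) ?_)
          exact (Finset.erase_subset _ _).trans (hBP i)
    · intro x hx
      rw [Finset.mem_insert, Finset.mem_insert, Finset.mem_erase] at hx
      rw [Finset.mem_union, Finset.mem_insert, Finset.mem_singleton]
      tauto
    · rw [Finset.card_insert_of_notMem, Finset.card_insert_of_notMem, Finset.card_erase_of_mem hyB]
      · have : 0 < B.card := Finset.card_pos.2 ⟨y, hyB⟩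
        omega
      · exact fun h => heB' (Finset.mem_of_mem_erase h)
      · intro h
        rw [Finset.mem_insert] at h
        rcases h with h | h
        · exact hne h
        · exact heB (Finset.mem_of_mem_erase h)

/-- `X` augments `B`. -/
def Augm {k : ℕ} (M : Fin k → Matroid E) (B X : Finset E) : Prop :=
  X.card ≤ 2 ∧ ∃ B' : Finset E, (∀ i, (M i).Indep (B' : Set E)) ∧ B' ⊆ B ∪ X ∧ B.card < B'.card

/-- Many disjoint augmentations. -/
theorem many_aug {k : ℕ} (hk : 1 ≤ k) (M : Fin k → Matroid E) (hE : ∀ i, (M i).E = Set.univ)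
    {B : Finset E} (hB : ∀ i, (M i).Indep (B : Set E)) (n : ℕ) :
    ∀ S : Finset E, S.card = n → (∀ i, (M i).Indep (S : Set E)) →
      ∃ F : Finset (Finset E), (∀ X ∈ F, X ⊆ S ∧ X.Nonempty ∧ Augm M B X) ∧
        ((F : Set (Finset E)).PairwiseDisjoint id) ∧
        2 * S.card ≤ 4 * F.card + (k + 1) * B.card := by
  classical
  induction n using Nat.strong_induction_on with
  | _ n ih =>
    intro S hSn hS
    rcases Nat.lt_or_ge ((k + 1) * B.card) (2 * S.card) with hlt | hge
    · obtain ⟨X, hX1, hX2, hX3, hX4⟩ := augment hk M hE hB hS hlt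
      have hXS : X ⊆ S := hX1.trans Finset.sdiff_subset
      have hXpos : 0 < X.card := Finset.card_pos.2 hX2
      have hcard : (S \ X).card + X.card = S.card := Finset.card_sdiff_add_card_eq_card hXS
      obtain ⟨F, hF1, hF2, hF3⟩ := ih (S \ X).card (by omega) (S \ X) rfl
        (fun i => (hS i).subset (Finset.coe_subset.2 Finset.sdiff_subset))
      have hXF : X ∉ F := by
        intro h
        obtain ⟨e, he⟩ := hX2
        exact (Finset.mem_sdiff.1 ((hF1 X h).1 he)).2 he
      refine ⟨insert X F, ?_, ?_, ?_⟩
      · intro Y hY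
        rcases Finset.mem_insert.1 hY with rfl | hY
        · exact ⟨hXS, hX2, hX3, hX4⟩
        · exact ⟨(hF1 Y hY).1.trans Finset.sdiff_subset, (hF1 Y hY).2⟩
      · rw [Finset.coe_insert]
        refine hF2.insert fun Y hY _ => ?_
        rw [id, id, Finset.disjoint_left]
        intro e he he'
        exact (Finset.mem_sdiff.1 ((hF1 Y (Finset.mem_coe.1 hY)).1 he')).2 he
      · rw [Finset.card_insert_of_notMem hXF]
        omega
    · exact ⟨∅, by simp, by simp, by simpa using hge⟩

end Pool.Agent.Helper39.SR
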