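import Mathlib

/-!
# Truncation of a family of vectors
-/

set_option autoImplicit false

namespace Pool.Agent.Helper39.SR

open Submodule Module

/-- A finite family of vectors has a linear image in `K ^ r` in which all independent subfamilies
with at most `r` members stay independent. -/
theorem exists_proj {K : Type*} [Field K] [Infinite K] {E : Type*} [Finite E] (r : ℕ) :
    ∀ (n : ℕ) (V : Type*) [AddCommGroup V] [Module K V] [FiniteDimensional K V] (v : E → V),
      finrank K V = n → ∃ π : V →ₗ[K] (Fin r → K), ∀ S : Finset E, S.card ≤ r →
        LinearIndepOn K v (S : Set E) → LinearIndepOn K (π ∘ v) (S : Set E) := by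
  classical
  intro n
  induction n with
  | zero =>
    intro V _ _ _ v hn
    obtain ⟨f, hf⟩ := (finrank_le_iff_exists_linearMap (R := K) (M := V) (M' := Fin r → K)).1
      (by rw [hn]; exact Nat.zero_le _)
    exact ⟨f, fun S _ hS => hS.map_injOn f hf.injOn⟩
  | succ n ih =>
    intro V _ _ _ v hn
    by_cases hr : n + 1 ≤ r
    · obtain ⟨f, hf⟩ := (finrank_le_iff_exists_linearMap (R := K) (M := V) (M' := Fin r → K)).1
        (by rw [hn]; simpa using hr)
      exact ⟨f, fun S _ hS => hS.map_injOn f hf.injOn⟩
    · have := Fintype.ofFinite E
      let s : Finset (Subspace K V) :=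
        ((Finset.univ : Finset (Finset E)).filter (fun S => S.card ≤ r)).image
          (fun S : Finset E => span K (v '' (S : Set E)))
      have hs : (⊤ : Subspace K V) ∉ s := by
        intro h
        simp only [s, Finset.mem_image, Finset.mem_filter, Finset.mem_univ, true_and] at h
        obtain ⟨S, hS, hSt⟩ := h
        have h1 : finrank K ↥(span K (v '' (S : Set E))) ≤ S.card := by
          have := finrank_span_finset_le_card (R := K) (S.image v)
          rw [Finset.coe_image] at this
          exact this.trans Finset.card_image_le
        rw [hSt, finrank_top, hn] at h1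
        omega
      have h2 := Subspace.biUnion_ne_univ_of_top_notMem hs
      obtain ⟨u, hu⟩ := (Set.ne_univ_iff_exists_notMem _).1 h2
      have hu' : ∀ S : Finset E, S.card ≤ r → u ∉ span K (v '' (S : Set E)) := by
        intro S hS hc
        apply hu
        simp only [Set.mem_iUnion]
        refine ⟨span K (v '' (S : Set E)), ?_, hc⟩
        simp only [s, Finset.mem_image, Finset.mem_filter, Finset.mem_univ, true_and]
        exact ⟨S, hS, rfl⟩
      have hu0 : u ≠ 0 := by
        have := hu' ∅ (by simp)
        simpa using this
      have h3 : finrank K (V ⧸ (span K {u})) = n := by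
        have h4 := Submodule.finrank_quotient_add_finrank (span K {u})
        rw [finrank_span_singleton hu0, hn] at h4
        omega
      obtain ⟨π, hπ⟩ := ih (V ⧸ (span K {u})) ((span K {u}).mkQ ∘ v) h3
      refine ⟨π ∘ₗ (span K {u}).mkQ, fun S hS hSi => ?_⟩
      have h5 : LinearIndepOn K ((span K {u}).mkQ ∘ v) (S : Set E) := by
        refine hSi.map_injOn _ ?_
        intro a ha b hb hab
        have h6 : a - b ∈ span K {u} := by
          have := sub_eq_zero.2 hab
          rw [← map_sub, ← LinearMap.mem_ker, Submodule.ker_mkQ] at this
          exact this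
        obtain ⟨c, hc⟩ := mem_span_singleton.1 h6
        by_cases hc0 : c = 0
        · rw [hc0, zero_smul] at hc
          exact (sub_eq_zero.1 hc.symm)
        · exfalso
          apply hu' S hS
          have h7 : u = c⁻¹ • (a - b) := by
            rw [← hc, smul_smul, inv_mul_cancel₀ hc0, one_smul]
          rw [h7]
          exact Submodule.smul_mem _ _ (Submodule.sub_mem _ ha hb)
      exact hπ S hS h5

end Pool.Agent.Helper39.SR
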