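import Pool.Agent.Helper39.SR.Layers
import Pool.Agent.Helper39.SR.Trunc

/-!
# The deterministic part: layers and replacement
-/

set_option autoImplicit false

namespace Pool.Agent.Helper39.SR

open Submodule Module

variable {K : Type*} [Field K] {E : Type*}

/-- the vector of all products of coordinates -/
def tens {k r : ℕ} (v : Fin k → E → Fin r → K) (e : E) : (Fin k → Fin r) → K :=
  fun α => ∏ i, v i e (α i)

theorem tens_functional {k r : ℕ} (v : Fin k → E → Fin r → K)
    (φ : Fin k → ((Fin r → K) →ₗ[K] K)) :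
    ∃ Φ : ((Fin k → Fin r) → K) →ₗ[K] K, ∀ e, Φ (tens v e) = ∏ i, φ i (v i e) := by
  classical
  refine ⟨∑ α : Fin k → Fin r, (∏ i, φ i (Pi.single (α i) 1)) • LinearMap.proj α, fun e => ?_⟩
  have h1 : ∀ i, φ i (v i e) = ∑ j, φ i (Pi.single j 1) * v i e j := by
    intro i
    rw [LinearMap.pi_apply_eq_sum_univ (φ i) (v i e)]
    refine Finset.sum_congr rfl fun j _ => ?_
    rw [smul_eq_mul, mul_comm]
    congr 2
    ext l
    simp [Pi.single_apply, eq_comm]
  simp only [h1]
  rw [Finset.prod_univ_sum, Fintype.piFinset_univ]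
  simp only [LinearMap.coe_sum, Finset.sum_apply, LinearMap.smul_apply, LinearMap.proj_apply,
    smul_eq_mul, tens]
  refine Finset.sum_congr rfl fun α _ => ?_
  rw [← Finset.prod_mul_distrib]

/-- Replacement: if all vectors outside `Q` are spanned by those of `Q ∩ R` of at least the same
weight, then every common independent set in `R` can be moved into `Q ∩ R`. -/
theorem replace {k r : ℕ} (hk : 1 ≤ k) [DecidableEq E] {V : Fin k → Type*}
    [∀ i, AddCommGroup (V i)] [∀ i, Module K (V i)] (v : ∀ i, E → V i)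
    (π : ∀ i, V i →ₗ[K] (Fin r → K))
    (hπ : ∀ i, ∀ S : Finset E, S.card ≤ r → LinearIndepOn K (v i) (S : Set E) →
      LinearIndepOn K (π i ∘ v i) (S : Set E))
    (hr : ∀ S : Finset E, (∀ i, LinearIndepOn K (v i) (S : Set E)) → S.card ≤ r)
    (w : E → ℝ) (Q R : Finset E)
    (h : ∀ e, e ∉ Q → tens (fun i e => π i (v i e)) e ∈
      span K (tens (fun i e => π i (v i e)) '' {f | f ∈ Q ∩ R ∧ w e ≤ w f})) :
    ∀ (n : ℕ) (S : Finset E), (S \ Q).card = n → S ⊆ R →
      (∀ i, LinearIndepOn K (v i) (S : Set E)) →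
      ∃ S' : Finset E, S' ⊆ Q ∩ R ∧ (∀ i, LinearIndepOn K (v i) (S' : Set E)) ∧
        ∑ e ∈ S, w e ≤ ∑ e ∈ S', w e := by
  intro n
  induction n with
  | zero =>
    intro S hn hSR hS
    refine ⟨S, ?_, hS, le_rfl⟩
    rw [Finset.card_eq_zero, Finset.sdiff_eq_empty_iff_subset] at hn
    exact Finset.subset_inter hn hSR
  | succ n ih =>
    intro S hn hSR hS
    obtain ⟨e, he⟩ : (S \ Q).Nonempty := by
      rw [← Finset.card_pos]; omega
    rw [Finset.mem_sdiff] at he
    have hcard := hr S hS
    have hins : insert e (S.erase e) = S := Finset.insert_erase he.1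
    -- the functionals
    have h1 : ∀ i, ∃ φ : (Fin r → K) →ₗ[K] K, φ (π i (v i e)) ≠ 0 ∧
        span K ((π i ∘ v i) '' ((S.erase e : Finset E) : Set E)) ≤ LinearMap.ker φ := by
      intro i
      have h2 := hπ i S hcard (hS i)
      rw [← hins, Finset.coe_insert, linearIndepOn_insert (by simp)] at h2
      exact Submodule.exists_le_ker_of_notMem h2.2
    choose φ hφ1 hφ2 using h1
    obtain ⟨Φ, hΦ⟩ := tens_functional (fun i e => π i (v i e)) φ
    have h3 : Φ (tens (fun i e => π i (v i e)) e) ≠ 0 := by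
      rw [hΦ]
      exact Finset.prod_ne_zero_iff.2 fun i _ => hφ1 i
    obtain ⟨f, hf, hΦf⟩ : ∃ f, (f ∈ Q ∩ R ∧ w e ≤ w f) ∧
        Φ (tens (fun i e => π i (v i e)) f) ≠ 0 := by
      by_contra hcon
      push Not at hcon
      apply h3
      have h4 : span K (tens (fun i e => π i (v i e)) '' {f | f ∈ Q ∩ R ∧ w e ≤ w f}) ≤
          LinearMap.ker Φ := by
        rw [span_le]
        rintro _ ⟨f, hf, rfl⟩
        exact hcon f hf
      exact h4 (h e he.2)
    rw [hΦ, Finset.prod_ne_zero_iff] at hΦf
    have h5 : ∀ i, v i f ∉ span K (v i '' ((S.erase e : Finset E) : Set E)) := by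
      intro i hc
      apply hΦf i (Finset.mem_univ i)
      have h6 : π i (v i f) ∈ span K ((π i ∘ v i) '' ((S.erase e : Finset E) : Set E)) := by
        rw [Set.image_comp, ← Submodule.map_span]
        exact Submodule.mem_map_of_mem hc
      exact hφ2 i h6
    have hfS : f ∉ S.erase e := by
      intro hc
      exact h5 ⟨0, hk⟩ (subset_span ⟨f, hc, rfl⟩)
    have hQR := Finset.mem_inter.1 hf.1
    have h6 : (insert f (S.erase e) \ Q).card = n := by
      have h7 : insert f (S.erase e) \ Q = (S \ Q).erase e := by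
        ext x
        simp only [Finset.mem_sdiff, Finset.mem_insert, Finset.mem_erase]
        constructor
        · rintro ⟨rfl | h8, h9⟩
          · exact absurd hQR.1 h9
          · exact ⟨h8.1, h8.2, h9⟩
        · rintro ⟨h8, h9, h10⟩
          exact ⟨Or.inr ⟨h8, h9⟩, h10⟩
      rw [h7, Finset.card_erase_of_mem (Finset.mem_sdiff.2 he), hn]
      rfl
    have h7 : insert f (S.erase e) ⊆ R := by
      intro x hx
      rcases Finset.mem_insert.1 hx with rfl | hx
      · exact hQR.2
      · exact hSR (Finset.mem_of_mem_erase hx)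
    have h8 : ∀ i, LinearIndepOn K (v i) ((insert f (S.erase e) : Finset E) : Set E) := by
      intro i
      rw [Finset.coe_insert]
      exact ((hS i).mono (Finset.coe_subset.2 (Finset.erase_subset _ _))).insert (h5 i)
    obtain ⟨S', hS'1, hS'2, hS'3⟩ := ih _ h6 h7 h8
    refine ⟨S', hS'1, hS'2, le_trans ?_ hS'3⟩
    rw [Finset.sum_insert hfS, ← Finset.add_sum_erase S w he.1]
    linarith [hf.2]

section layersec

variable {Y : Type*} [AddCommGroup Y] [Module K Y]

/-- a greedy basis of `A` -/
noncomputable def gb [DecidableEq E] (X : E → Y) (w : E → ℝ) (A : Finset E) : Finset E :=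
  (greedy X (⊥ : Submodule K Y) w A).choose

theorem gb_spec [DecidableEq E] (X : E → Y) (w : E → ℝ) (A : Finset E) :
    gb (K := K) X w A ⊆ A ∧ LinearIndepOn K X (gb (K := K) X w A : Set E) ∧
      ∀ e ∈ A, X e ∈ span K (X '' {f | f ∈ gb (K := K) X w A ∧ w e ≤ w f}) := by
  obtain ⟨h1, h2, -, h3⟩ := (greedy X (⊥ : Submodule K Y) w A).choose_spec
  refine ⟨h1, h2, fun e he => ?_⟩
  have := h3 e he
  rw [bot_sup_eq] at this
  exact this

/-- what is left after `t` layers -/
noncomputable def rest [DecidableEq E] [Fintype E] (K : Type*) [Field K] {Y : Type*}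
    [AddCommGroup Y] [Module K Y] (X : E → Y) (w : E → ℝ) : ℕ → Finset E
  | 0 => Finset.univ
  | t + 1 => rest K X w t \ gb (K := K) X w (rest K X w t)

/-- the layer number `t` -/
noncomputable def lay [DecidableEq E] [Fintype E] (K : Type*) [Field K] {Y : Type*}
    [AddCommGroup Y] [Module K Y] (X : E → Y) (w : E → ℝ) (t : ℕ) : Finset E :=
  gb (K := K) X w (rest K X w t)

variable [DecidableEq E] [Fintype E] (X : E → Y) (w : E → ℝ)

theorem rest_anti {s t : ℕ} (h : s ≤ t) : rest K X w t ⊆ rest K X w s := by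
  induction t, h using Nat.le_induction with
  | base => exact Finset.Subset.refl _
  | succ t _ ih => exact (Finset.sdiff_subset).trans ih

theorem lay_disj {s t : ℕ} (h : s ≠ t) : Disjoint (lay K X w s) (lay K X w t) := by
  wlog hst : s < t generalizing s t
  · exact (this h.symm (lt_of_le_of_ne (not_lt.1 hst) h.symm)).symm
  rw [Finset.disjoint_left]
  intro e hs ht
  have h1 : e ∈ rest K X w t := (gb_spec X w _).1 ht
  have h2 : e ∈ rest K X w (s + 1) := rest_anti X w hst h1
  exact (Finset.mem_sdiff.1 h2).2 hs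

theorem mem_rest {L : ℕ} {e : E} :
    e ∈ rest K X w L ↔ e ∉ (Finset.range L).biUnion (lay K X w) := by
  induction L with
  | zero => simp [rest]
  | succ L ih =>
    rw [Finset.range_add_one, Finset.biUnion_insert, Finset.mem_union, not_or, ← ih]
    show e ∈ rest K X w L \ lay K X w L ↔ _
    rw [Finset.mem_sdiff]
    tauto

theorem card_lay_le [FiniteDimensional K Y] (t : ℕ) : (lay K X w t).card ≤ finrank K Y :=
  card_le_of_indep (gb_spec X w _).2.1

theorem lay_step (τ : ℝ) (t : ℕ) :
    sp (K := K) X ((lay K X w (t + 1)).filter fun f => τ ≤ w f) ≤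
      sp X ((lay K X w t).filter fun f => τ ≤ w f) := by
  refine span_le.2 ?_
  rintro _ ⟨f, hf, rfl⟩
  rw [Finset.mem_coe, Finset.mem_filter] at hf
  have h1 : f ∈ rest K X w t := rest_anti X w (Nat.le_succ t) ((gb_spec X w _).1 hf.1)
  refine span_mono (Set.image_mono ?_) ((gb_spec (K := K) X w _).2.2 f h1)
  rintro g ⟨hg, hgw⟩
  rw [Finset.mem_coe, Finset.mem_filter]
  exact ⟨hg, hf.2.trans hgw⟩

end layersec

end Pool.Agent.Helper39.SR
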