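import Pool.Agent.Helper39.SR.Main
import Mathlib.Combinatorics.Matroid.Closure
import Mathlib.Combinatorics.Matroid.Rank.ENat

/-!
# Kernels for the intersection of arbitrary matroids
-/

set_option autoImplicit false

namespace Pool.Agent.Helper39.SR

variable {E : Type} [Fintype E] [DecidableEq E]

omit [Fintype E] [DecidableEq E] in
/-- Independent subsets of the closure of a set are not larger than the set. -/
theorem card_le_of_subset_closure (N : Matroid E) {I T : Finset E} (hI : N.Indep (I : Set E))
    (h : (I : Set E) ⊆ N.closure (T : Set E)) : I.card ≤ T.card := by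
  have h1 : (I : Set E).encard ≤ N.eRk (N.closure (T : Set E)) := by
    rw [← hI.eRk_eq_encard]
    exact N.eRk_mono h
  rw [Matroid.eRk_closure_eq] at h1
  have h2 := h1.trans (N.eRk_le_encard (T : Set E))
  rw [Set.encard_coe_eq_coe_finsetCard, Set.encard_coe_eq_coe_finsetCard] at h2
  exact_mod_cast h2

omit [Fintype E] in
/-- The kernel: for every `T` and every element `e` of `A` free from `T`, the kernel has an element
at least as heavy as `e` and free from `T`. -/
theorem exists_ker {k : ℕ} (M : Fin k → Matroid E) (hE : ∀ i, (M i).E = Set.univ) (w : E → ℝ)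
    (A : Finset E) (n : ℕ) : ∀ X : Fin k → Finset E, (∀ i, (M i).Indep (X i : Set E)) →
      ∃ Q : Finset E, Q ⊆ A ∧ Q.card ≤ (k + 1) ^ n ∧ ∀ T : Finset E,
        (∀ i, (X i : Set E) ⊆ (M i).closure (T : Set E)) →
        k * T.card < n + ∑ i, (X i).card → ∀ e ∈ A, (∀ i, e ∉ (M i).closure (T : Set E)) →
        ∃ f ∈ Q, w e ≤ w f ∧ ∀ i, f ∉ (M i).closure (T : Set E) := by
  classical
  induction n with
  | zero =>
    intro X hX
    refine ⟨∅, Finset.empty_subset _, by simp, ?_⟩
    intro T hT hlt
    exfalso
    have h1 : ∑ i, (X i).card ≤ ∑ _i : Fin k, T.card :=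
      Finset.sum_le_sum fun i _ => card_le_of_subset_closure (M i) (hX i) (hT i)
    rw [Finset.sum_const, Finset.card_univ, Fintype.card_fin, smul_eq_mul] at h1
    omega
  | succ n ih =>
    intro X hX
    rcases (A.filter fun f => ∀ i, f ∉ (M i).closure (X i : Set E)).eq_empty_or_nonempty with
      h0 | hne
    · refine ⟨∅, Finset.empty_subset _, by simp, ?_⟩
      intro T hT _ e he heT
      exfalso
      have : e ∈ A.filter fun f => ∀ i, f ∉ (M i).closure (X i : Set E) := by
        rw [Finset.mem_filter]
        refine ⟨he, fun i hi => heT i ?_⟩
        exact (M i).closure_subset_closure_of_subset_closure (hT i) hi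
      rw [h0] at this
      exact absurd this (Finset.notMem_empty e)
    · obtain ⟨f, hf, hmax⟩ := Finset.exists_max_image _ w hne
      rw [Finset.mem_filter] at hf
      have hX' : ∀ i j, (M j).Indep
          ((Function.update X i (insert f (X i)) j : Finset E) : Set E) := by
        intro i j
        by_cases hij : j = i
        · subst hij
          rw [Function.update_self, Finset.coe_insert]
          have h1 : f ∈ (M j).E := by rw [hE j]; trivial
          exact ((hX j).notMem_closure_iff h1).1 (hf.2 j) |>.1
        · rw [Function.update_of_ne hij]
          exact hX j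
      have hQ := fun i => ih (Function.update X i (insert f (X i))) (hX' i)
      choose Q hQA hQc hQ using hQ
      refine ⟨insert f (Finset.univ.biUnion Q), ?_, ?_, ?_⟩
      · rw [Finset.insert_subset_iff, Finset.biUnion_subset]
        exact ⟨hf.1, fun i _ => hQA i⟩
      · refine (Finset.card_insert_le _ _).trans ?_
        have h1 : (Finset.univ.biUnion Q).card ≤ ∑ _i : Fin k, (k + 1) ^ n :=
          Finset.card_biUnion_le.trans (Finset.sum_le_sum fun i _ => hQc i)
        rw [Finset.sum_const, Finset.card_univ, Fintype.card_fin, smul_eq_mul] at h1
        have h2 : 1 ≤ (k + 1) ^ n := Nat.one_le_pow _ _ (Nat.succ_pos k)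
        rw [pow_succ]
        nlinarith
      · intro T hT hlt e he heT
        have hec : e ∈ A.filter fun f => ∀ i, f ∉ (M i).closure (X i : Set E) := by
          rw [Finset.mem_filter]
          refine ⟨he, fun i hi => heT i ?_⟩
          exact (M i).closure_subset_closure_of_subset_closure (hT i) hi
        have hwf := hmax e hec
        by_cases hfree : ∀ i, f ∉ (M i).closure (T : Set E)
        · exact ⟨f, Finset.mem_insert_self _ _, hwf, hfree⟩
        · push Not at hfree
          obtain ⟨i, hi⟩ := hfree
          have hfX : f ∉ X i := fun h => hf.2 i ((M i).mem_closure_of_mem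
            (Finset.mem_coe.2 h) (by rw [hE i]; exact Set.subset_univ _))
          have h1 : ∀ j, ((Function.update X i (insert f (X i)) j : Finset E) : Set E) ⊆
              (M j).closure (T : Set E) := by
            intro j
            by_cases hij : j = i
            · subst hij
              rw [Function.update_self, Finset.coe_insert, Set.insert_subset_iff]
              exact ⟨hi, hT j⟩
            · rw [Function.update_of_ne hij]
              exact hT j
          have h2 : ∑ j, (Function.update X i (insert f (X i)) j).card =
              ∑ j, (X j).card + 1 := by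
            rw [← Finset.add_sum_erase _ _ (Finset.mem_univ i),
              ← Finset.add_sum_erase Finset.univ (fun j => (X j).card) (Finset.mem_univ i),
              Function.update_self, Finset.card_insert_of_notMem hfX]
            have h3 : ∑ j ∈ Finset.univ.erase i,
                (Function.update X i (insert f (X i)) j).card =
                ∑ j ∈ Finset.univ.erase i, (X j).card := by
              refine Finset.sum_congr rfl fun j hj => ?_
              rw [Function.update_of_ne (Finset.ne_of_mem_erase hj)]
            rw [h3]
            omega
          obtain ⟨f', hf', hf'w, hf'T⟩ := hQ i T h1 (by rw [h2]; omega) e he heT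
          exact ⟨f', Finset.mem_insert_of_mem (Finset.mem_biUnion.2 ⟨i, Finset.mem_univ i, hf'⟩),
            hf'w, hf'T⟩

end Pool.Agent.Helper39.SR
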