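import Pool.Agent.Helper39.SR.GenKer

/-!
# The sparsifier for arbitrary matroids
-/

set_option autoImplicit false

namespace Pool.Agent.Helper39.SR

open Pool.Agent.Helper68.SP

variable {E : Type} [Fintype E] [DecidableEq E]

/-- what is left after `t` layers -/
def restF (Kr : Finset E → Finset E) : ℕ → Finset E
  | 0 => Finset.univ
  | t + 1 => restF Kr t \ Kr (restF Kr t)

theorem restF_anti (Kr : Finset E → Finset E) {s t : ℕ} (h : s ≤ t) :
    restF Kr t ⊆ restF Kr s := by
  induction h with
  | refl => exact subset_rfl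
  | step _ ih => exact Finset.sdiff_subset.trans ih

theorem layF_disj (Kr : Finset E → Finset E) (hKr : ∀ A, Kr A ⊆ A) {s t : ℕ} (h : s < t)
    {e : E} (hs : e ∈ Kr (restF Kr s)) : e ∉ Kr (restF Kr t) := by
  intro ht
  have h1 : e ∈ restF Kr (s + 1) := restF_anti Kr h (hKr _ ht)
  exact (Finset.mem_sdiff.1 h1).2 hs

theorem mem_restF (Kr : Finset E → Finset E) {t : ℕ} {e : E}
    (h : ∀ s < t, e ∉ Kr (restF Kr s)) : e ∈ restF Kr t := by
  induction t with
  | zero => exact Finset.mem_univ e
  | succ t ih =>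
    exact Finset.mem_sdiff.2 ⟨ih fun s hs => h s (hs.trans (Nat.lt_succ_self t)),
      h t (Nat.lt_succ_self t)⟩

/-- The probability that the random set misses `F`. -/
theorem prob_miss (F : Finset E) (p : ℝ) :
    Ex (fun _ => p) (fun R => if (F ∩ R).Nonempty then (0 : ℝ) else 1) = (1 - p) ^ F.card := by
  have h1 : ∀ R : Finset E, (if (F ∩ R).Nonempty then (0 : ℝ) else 1) =
      ∏ e, if e ∈ R then (if e ∈ F then (0 : ℝ) else 1) else 1 := by
    intro R
    split_ifs with h
    · obtain ⟨e, he⟩ := h
      rw [Finset.mem_inter] at he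
      symm
      refine Finset.prod_eq_zero (Finset.mem_univ e) ?_
      rw [if_pos he.2, if_pos he.1]
    · symm
      refine Finset.prod_eq_one fun e _ => ?_
      by_cases h2 : e ∈ R
      · rw [if_pos h2, if_neg]
        exact fun h3 => h ⟨e, Finset.mem_inter.2 ⟨h3, h2⟩⟩
      · rw [if_neg h2]
  rw [Ex_congr _ h1, Ex_prod (fun _ => p) (fun e => if e ∈ F then (0 : ℝ) else 1) (fun _ => 1)]
  have h2 : ∀ e : E, p * (if e ∈ F then (0 : ℝ) else 1) + (1 - p) * 1 =
      if e ∈ F then 1 - p else 1 := by
    intro e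
    split_ifs <;> ring
  simp only [h2]
  rw [Finset.prod_ite_mem, Finset.univ_inter, Finset.prod_const]

omit [Fintype E] in
/-- The number of small subsets. -/
theorem card_small (Q : Finset E) (r : ℕ) :
    (Q.powerset.filter (fun J => J.card ≤ r)).card ≤ (Q.card + 1) ^ r := by
  induction r with
  | zero =>
    rw [pow_zero, Finset.card_le_one]
    intro a ha b hb
    rw [Finset.mem_filter] at ha hb
    rw [Finset.card_eq_zero.1 (Nat.le_zero.1 ha.2), Finset.card_eq_zero.1 (Nat.le_zero.1 hb.2)]
  | succ r ih =>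
    have h1 : Q.powerset.filter (fun J => J.card ≤ r + 1) ⊆
        ((Finset.insertNone Q) ×ˢ (Q.powerset.filter (fun J => J.card ≤ r))).image
          (fun x => x.1.toFinset ∪ x.2) := by
      intro J hJ
      rw [Finset.mem_filter, Finset.mem_powerset] at hJ
      rw [Finset.mem_image]
      rcases J.eq_empty_or_nonempty with h0 | ⟨e, he⟩
      · refine ⟨(none, ∅), ?_, by simp [h0]⟩
        simp
      · refine ⟨(some e, J.erase e), ?_, ?_⟩
        · rw [Finset.mem_product, Finset.mem_filter, Finset.mem_powerset]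
          refine ⟨by simpa using hJ.1 he, (Finset.erase_subset _ _).trans hJ.1, ?_⟩
          rw [Finset.card_erase_of_mem he]
          omega
        · simp only [Option.toFinset_some]
          rw [← Finset.insert_eq, Finset.insert_erase he]
    refine (Finset.card_le_card h1).trans (Finset.card_image_le.trans ?_)
    rw [Finset.card_product, Finset.card_insertNone, pow_succ, mul_comm]
    exact Nat.mul_le_mul_right _ ih

/-- **The sparsifier** for arbitrary matroids with `L` layers. -/
theorem main_gen {k r : ℕ} (hk : 1 ≤ k) (M : Fin k → Matroid E)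
    (hE : ∀ i, (M i).E = Set.univ)
    (hr : ∀ S : Finset E, (∀ i, (M i).Indep (S : Set E)) → S.card ≤ r)
    (w : E → ℝ) {p : ℝ} (hp : 0 ≤ p) (hp1 : p ≤ 1) (L : ℕ) (hL : 1 ≤ L) :
    ∃ Q : Finset E, Q.card ≤ L * (k + 1) ^ (k * r) ∧
      (1 - ((L : ℝ) * ((k : ℝ) + 1) ^ (k * r) + 1) ^ (k * r + 1) * (1 - p) ^ L) *
        Ex (fun _ => p) (optC (fun S => ∀ i, (M i).Indep (S : Set E)) w) ≤
      Ex (fun _ => p) (fun R =>
        optC (fun S => ∀ i, (M i).Indep (S : Set E)) w (Q ∩ R)) := by
  classical
  have hrate : IsRate (fun _ : E => p) := fun _ => ⟨hp, hp1⟩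
  set Com : Finset E → Prop := fun S => ∀ i, (M i).Indep (S : Set E) with hCom
  have hC0 : Com ∅ := fun i => by simp
  have hker := fun A => exists_ker M hE w A (k * r) (fun _ => ∅) (fun i => by simp)
  choose Kr hKA hKc hK using hker
  let Q : Finset E := (Finset.range L).biUnion fun t => Kr (restF Kr t)
  have hQc : Q.card ≤ L * (k + 1) ^ (k * r) := by
    refine Finset.card_biUnion_le.trans ?_
    refine (Finset.sum_le_sum fun t _ => hKc _).trans ?_
    rw [Finset.sum_const, Finset.card_range, smul_eq_mul]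
  let F : E × (Fin k → Finset E) → Finset E := fun x =>
    Q.filter fun f => w x.1 ≤ w f ∧ ∀ i, f ∉ (M i).closure (x.2 i : Set E)
  let JJ : Finset (Fin k → Finset E) :=
    Fintype.piFinset fun _ => Q.powerset.filter fun J => J.card ≤ r
  let Gd : Finset E → Prop := fun R => ∀ x ∈ Q ×ˢ JJ, L ≤ (F x).card → (F x ∩ R).Nonempty
  have hGmono : ∀ R R', R ⊆ R' → Gd R → Gd R' := fun R R' h hG x hx hLx =>
    (hG x hx hLx).mono (Finset.inter_subset_inter_left h)
  have hidx : (((Q ×ˢ JJ).card : ℕ) : ℝ) ≤
      ((L : ℝ) * ((k : ℝ) + 1) ^ (k * r) + 1) ^ (k * r + 1) := by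
    have h1 : (Q ×ˢ JJ).card ≤ (L * (k + 1) ^ (k * r) + 1) ^ (k * r + 1) := by
      rw [Finset.card_product, Fintype.card_piFinset_const, pow_succ, mul_comm]
      refine Nat.mul_le_mul ?_ (hQc.trans (Nat.le_succ _))
      rw [mul_comm k r, pow_mul]
      refine Nat.pow_le_pow_left ?_ k
      refine (card_small Q r).trans (Nat.pow_le_pow_left ?_ r)
      rw [mul_comm r k]
      exact Nat.succ_le_succ hQc
    calc (((Q ×ˢ JJ).card : ℕ) : ℝ) ≤ (((L * (k + 1) ^ (k * r) + 1) ^ (k * r + 1) : ℕ) : ℝ) := by
          exact_mod_cast h1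
      _ = _ := by push_cast; ring
  have hprob : 1 - ((L : ℝ) * ((k : ℝ) + 1) ^ (k * r) + 1) ^ (k * r + 1) * (1 - p) ^ L ≤
      Ex (fun _ => p) (fun R => if Gd R then (1 : ℝ) else 0) := by
    let b : E × (Fin k → Finset E) → Finset E → ℝ := fun x R =>
      if L ≤ (F x).card then (if (F x ∩ R).Nonempty then 0 else 1) else 0
    have hb0 : ∀ x R, 0 ≤ b x R := by
      intro x R
      simp only [b]
      split_ifs <;> norm_num
    have h1 : ∀ R, (1 : ℝ) - ∑ x ∈ Q ×ˢ JJ, b x R ≤ if Gd R then (1 : ℝ) else 0 := by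
      intro R
      split_ifs with h
      · have : (0 : ℝ) ≤ ∑ x ∈ Q ×ˢ JJ, b x R := Finset.sum_nonneg fun x _ => hb0 x R
        linarith
      · simp only [Gd, not_forall] at h
        obtain ⟨x, hx, hLx, hne⟩ := h
        have h2 : b x R = 1 := by
          simp only [b]
          rw [if_pos hLx, if_neg hne]
        have h3 : b x R ≤ ∑ x ∈ Q ×ˢ JJ, b x R :=
          Finset.single_le_sum (f := fun x => b x R) (fun x _ => hb0 x R) hx
        rw [h2] at h3
        linarith
    refine le_trans ?_ (Ex_mono hrate h1)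
    rw [Ex_sub, Ex_const, Ex_sum]
    have h2 : ∀ x, Ex (fun _ => p) (b x) ≤ (1 - p) ^ L := by
      intro x
      by_cases hLx : L ≤ (F x).card
      · have h3 : Ex (fun _ => p) (b x) = (1 - p) ^ (F x).card := by
          rw [← prob_miss]
          refine Ex_congr _ fun R => ?_
          simp only [b]
          rw [if_pos hLx]
        rw [h3]
        exact pow_le_pow_of_le_one (by linarith) (by linarith) hLx
      · have h3 : Ex (fun _ => p) (b x) = 0 := by
          rw [← Ex_const (E := E) (fun _ => p) 0]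
          refine Ex_congr _ fun R => ?_
          simp only [b]
          rw [if_neg hLx]
        rw [h3]
        exact pow_nonneg (by linarith) _
    have h4 : ∑ x ∈ Q ×ˢ JJ, Ex (fun _ => p) (b x) ≤
        ((L : ℝ) * ((k : ℝ) + 1) ^ (k * r) + 1) ^ (k * r + 1) * (1 - p) ^ L := by
      refine (Finset.sum_le_sum fun x _ => h2 x).trans ?_
      rw [Finset.sum_const, nsmul_eq_mul]
      exact mul_le_mul_of_nonneg_right hidx (pow_nonneg (by linarith) _)
    linarith
  -- on the good event nothing is lost
  have hexch : ∀ R, Gd R → ∀ n, ∀ S : Finset E, (S \ Q).card = n → S ⊆ R → Com S →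
      ∃ S' : Finset E, S' ⊆ Q ∩ R ∧ Com S' ∧ ∑ e ∈ S, w e ≤ ∑ e ∈ S', w e := by
    intro R hG n
    induction n with
    | zero =>
      intro S hSn hSR hS
      rw [Finset.card_eq_zero, Finset.sdiff_eq_empty_iff_subset] at hSn
      exact ⟨S, Finset.subset_inter hSn hSR, hS, le_rfl⟩
    | succ n ih =>
      intro S hSn hSR hS
      obtain ⟨e, he⟩ : (S \ Q).Nonempty := Finset.card_pos.1 (by omega)
      rw [Finset.mem_sdiff] at he
      obtain ⟨heS, heQ⟩ := he
      have hTS : S.erase e ⊆ S := Finset.erase_subset _ _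
      have hTcard : (S.erase e).card < r := by
        rw [Finset.card_erase_of_mem heS]
        have h1 := hr S hS
        have h2 : 0 < S.card := Finset.card_pos.2 ⟨e, heS⟩
        omega
      have heT : ∀ i, e ∉ (M i).closure ((S.erase e : Finset E) : Set E) := by
        intro i
        rw [Finset.coe_erase]
        exact (hS i).notMem_closure_sdiff_of_mem (Finset.mem_coe.2 heS)
      have hstep : ∀ t, t < L → ∃ f ∈ Kr (restF Kr t), w e ≤ w f ∧
          ∀ i, f ∉ (M i).closure ((S.erase e : Finset E) : Set E) := by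
        intro t ht
        refine hK (restF Kr t) (S.erase e) (fun i => by simp) ?_ e ?_ heT
        · have h1 : k * (S.erase e).card < k * r := Nat.mul_lt_mul_of_pos_left hTcard hk
          omega
        · refine mem_restF Kr fun s hs hes => heQ ?_
          exact Finset.mem_biUnion.2 ⟨s, Finset.mem_range.2 (hs.trans ht), hes⟩
      have : Nonempty E := ⟨e⟩
      choose! g hg1 hg2 hg3 using hstep
      obtain ⟨t0, ht0, hmin⟩ := Finset.exists_min_image (Finset.range L) (fun t => w (g t))
        ⟨0, Finset.mem_range.2 hL⟩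
      have ht0' := Finset.mem_range.1 ht0
      have hgQ : ∀ t, t < L → g t ∈ Q := fun t ht =>
        Finset.mem_biUnion.2 ⟨t, Finset.mem_range.2 ht, hg1 t ht⟩
      have hJ : ∀ i, ∃ J : Finset E, (J : Set E) ⊆ (Q : Set E) ∩
          (M i).closure ((S.erase e : Finset E) : Set E) ∧ (M i).Indep (J : Set E) ∧
          (Q : Set E) ∩ (M i).closure ((S.erase e : Finset E) : Set E) ⊆
            (M i).closure (J : Set E) := by
        intro i
        obtain ⟨I, hI⟩ := (M i).exists_isBasis ((Q : Set E) ∩
          (M i).closure ((S.erase e : Finset E) : Set E)) (by rw [hE i]; exact Set.subset_univ _)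
        lift I to Finset E using Set.toFinite I
        exact ⟨I, hI.subset, hI.indep, hI.subset_closure⟩
      choose J hJ1 hJ2 hJ3 using hJ
      have hJcl : ∀ i, (M i).closure (J i : Set E) ⊆
          (M i).closure ((S.erase e : Finset E) : Set E) := fun i =>
        (M i).closure_subset_closure_of_subset_closure fun a ha => (hJ1 i ha).2
      have hx : ((g t0, J) : E × (Fin k → Finset E)) ∈ Q ×ˢ JJ := by
        rw [Finset.mem_product]
        refine ⟨hgQ t0 ht0', ?_⟩
        rw [Fintype.mem_piFinset]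
        intro i
        rw [Finset.mem_filter, Finset.mem_powerset]
        refine ⟨fun a ha => Finset.mem_coe.1 (hJ1 i (Finset.mem_coe.2 ha)).1, ?_⟩
        exact (card_le_of_subset_closure (M i) (hJ2 i) fun a ha => (hJ1 i ha).2).trans hTcard.le
      have hLx : L ≤ (F (g t0, J)).card := by
        rw [← Finset.card_range L]
        refine Finset.card_le_card_of_injOn g ?_ ?_
        · intro t ht
          have ht' := Finset.mem_range.1 (Finset.mem_coe.1 ht)
          refine Finset.mem_coe.2 (Finset.mem_filter.2 ⟨hgQ t ht', hmin t (Finset.mem_coe.1 ht),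
            fun i hi => hg3 t ht' i (hJcl i hi)⟩)
        · intro s hs t ht hst
          have hs' := Finset.mem_range.1 (Finset.mem_coe.1 hs)
          have ht' := Finset.mem_range.1 (Finset.mem_coe.1 ht)
          by_contra hne
          rcases lt_or_gt_of_ne hne with h | h
          · have h1 := layF_disj Kr hKA h (hg1 s hs')
            rw [hst] at h1
            exact h1 (hg1 t ht')
          · have h1 := layF_disj Kr hKA h (hg1 t ht')
            rw [← hst] at h1
            exact h1 (hg1 s hs')
      obtain ⟨f, hf⟩ := hG _ hx hLx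
      rw [Finset.mem_inter, Finset.mem_filter] at hf
      obtain ⟨⟨hfQ, hwf, hfJ⟩, hfR⟩ := hf
      have hfT : ∀ i, f ∉ (M i).closure ((S.erase e : Finset E) : Set E) := fun i hi =>
        hfJ i (hJ3 i ⟨Finset.mem_coe.2 hfQ, hi⟩)
      have hTind : ∀ i, (M i).Indep ((S.erase e : Finset E) : Set E) := fun i =>
        (hS i).subset (Finset.coe_subset.2 hTS)
      have hins : ∀ i, (M i).Indep (insert f ((S.erase e : Finset E) : Set E)) ∧
          f ∉ ((S.erase e : Finset E) : Set E) := fun i =>
        ((hTind i).notMem_closure_iff (by rw [hE i]; trivial)).1 (hfT i)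
      have hfn : f ∉ S.erase e := fun h => (hins ⟨0, hk⟩).2 (Finset.mem_coe.2 h)
      obtain ⟨S', hS'1, hS'2, hS'3⟩ := ih (insert f (S.erase e)) (by
          rw [Finset.insert_sdiff_of_mem _ hfQ, Finset.erase_sdiff_comm,
            Finset.card_erase_of_mem (Finset.mem_sdiff.2 ⟨heS, heQ⟩), hSn]
          rfl)
        (Finset.insert_subset hfR (hTS.trans hSR))
        (fun i => by rw [Finset.coe_insert]; exact (hins i).1)
      refine ⟨S', hS'1, hS'2, le_trans ?_ hS'3⟩
      rw [Finset.sum_insert hfn, ← Finset.add_sum_erase S w heS]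
      have := hg2 t0 ht0'
      have hwf' : w (g t0) ≤ w f := hwf
      linarith
  have hgood : ∀ R, Gd R → optC Com w R ≤ optC Com w (Q ∩ R) := by
    intro R hG
    refine opt_le hC0 fun S hSR hS => ?_
    obtain ⟨S', hS'1, hS'2, hS'3⟩ := hexch R hG _ S rfl hSR hS
    exact hS'3.trans (le_opt hS'1 hS'2)
  refine ⟨Q, hQc, ?_⟩
  have h1 : 0 ≤ Ex (fun _ => p) (optC Com w) := Ex_nonneg hrate fun S => opt_nonneg hC0 S
  refine le_trans (mul_le_mul_of_nonneg_right hprob h1) ?_
  refine le_trans (Ex_fkg hp hp1 (fun S => by split_ifs <;> norm_num)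
    (fun S => opt_nonneg hC0 S) ?_ fun S T h => opt_mono hC0 h) ?_
  · intro S T h
    by_cases hS : Gd S
    · rw [if_pos hS, if_pos (hGmono S T h hS)]
    · rw [if_neg hS]
      split_ifs <;> norm_num
  · refine Ex_mono hrate fun R => ?_
    split_ifs with h
    · rw [one_mul]
      exact hgood R h
    · rw [zero_mul]
      exact opt_nonneg hC0 _

end Pool.Agent.Helper39.SR
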