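import Mathlib

/-!
# Greedy bases
-/

set_option autoImplicit false

namespace Pool.Agent.Helper39.SR

open Submodule Module

variable {K Y E : Type*} [Field K] [AddCommGroup Y] [Module K Y]

/-- A set `J` of elements of `A`, independent modulo the subspace `F`, such that every element of
`A` is spanned modulo `F` by elements of `J` of at least the same weight. -/
theorem greedy [DecidableEq E] (X : E → Y) (F : Submodule K Y) (w : E → ℝ) (A : Finset E) :
    ∃ J ⊆ A, LinearIndepOn K X (J : Set E) ∧ Disjoint F (span K (X '' (J : Set E))) ∧
      ∀ e ∈ A, X e ∈ F ⊔ span K (X '' {f | f ∈ J ∧ w e ≤ w f}) := by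
  classical
  induction A using Finset.induction_on_min_value w with
  | empty =>
    refine ⟨∅, Finset.Subset.refl _, ?_, ?_, ?_⟩
    · simp
    · simp
    · simp
  | insert a s has hmin ih =>
    obtain ⟨J, hJs, hJi, hJd, hJ⟩ := ih
    by_cases h : X a ∈ F ⊔ span K (X '' (J : Set E))
    · refine ⟨J, hJs.trans (Finset.subset_insert _ _), hJi, hJd, ?_⟩
      intro e he
      rcases Finset.mem_insert.1 he with rfl | he
      · have : {f | f ∈ J ∧ w e ≤ w f} = (J : Set E) := by
          ext f
          simp only [Set.mem_setOf_eq, Finset.mem_coe, and_iff_left_iff_imp]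
          exact fun hf => hmin f (hJs hf)
        rw [this]
        exact h
      · exact hJ e he
    · have h1 : X a ∉ span K (X '' (J : Set E)) := fun h2 => h (mem_sup_right h2)
      refine ⟨insert a J, Finset.insert_subset_insert _ hJs, ?_, ?_, ?_⟩
      · rw [Finset.coe_insert]
        exact hJi.insert h1
      · rw [Finset.coe_insert, Set.image_insert_eq, Submodule.disjoint_def]
        intro z hzF hz
        rw [mem_span_insert] at hz
        obtain ⟨c, s', hs', rfl⟩ := hz
        by_cases hc : c = 0
        · subst hc
          rw [zero_smul, zero_add] at hzF ⊢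
          exact Submodule.disjoint_def.1 hJd _ hzF hs'
        · exfalso
          apply h
          have h3 : X a = c⁻¹ • (c • X a + s') - c⁻¹ • s' := by
            rw [smul_add, smul_smul, inv_mul_cancel₀ hc, one_smul, add_sub_cancel_right]
          rw [h3]
          exact Submodule.sub_mem _ (mem_sup_left (F.smul_mem _ hzF))
            (mem_sup_right (Submodule.smul_mem _ _ hs'))
      · intro e he
        rcases Finset.mem_insert.1 he with rfl | he
        · refine mem_sup_right (subset_span ⟨e, ?_, rfl⟩)
          exact ⟨Finset.mem_insert_self _ _, le_rfl⟩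
        · refine sup_le_sup_left (span_mono (Set.image_mono ?_)) F (hJ e he)
          rintro f ⟨hf, hwf⟩
          exact ⟨Finset.mem_insert_of_mem hf, hwf⟩

/-- The size of an independent set. -/
theorem card_le_of_indep [FiniteDimensional K Y] {X : E → Y} {J : Finset E}
    (h : LinearIndepOn K X (J : Set E)) : J.card ≤ finrank K Y := by
  have := LinearIndependent.fintype_card_le_finrank h
  simpa using this

/-- The dimension of the span of an independent set. -/
theorem finrank_span_of_indep {X : E → Y} {J : Finset E}
    (h : LinearIndepOn K X (J : Set E)) : finrank K (span K (X '' (J : Set E))) = J.card := by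
  have := finrank_span_eq_card h
  rw [← Set.image_eq_range] at this
  simpa using this

end Pool.Agent.Helper39.SR
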