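import Pool.Agent.Helper39.SR.Greedy
import Pool.Agent.Helper68.SP.Prob

/-!
# Random parts of several spanning layers
-/

set_option autoImplicit false

namespace Pool.Agent.Helper39.SR

open Submodule Module Pool.Agent.Helper68.SP

variable {K Y E : Type*} [Field K] [AddCommGroup Y] [Module K Y] [FiniteDimensional K Y]

/-- the span of the vectors of a finite set -/
def sp (X : E → Y) (A : Finset E) : Submodule K Y := span K (X '' (A : Set E))

omit [FiniteDimensional K Y] in
theorem sp_mono (X : E → Y) {A B : Finset E} (h : A ⊆ B) : sp (K := K) X A ≤ sp X B :=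
  span_mono (Set.image_mono (Finset.coe_subset.2 h))

omit [FiniteDimensional K Y] in
theorem sp_union [DecidableEq E] (X : E → Y) (A B : Finset E) :
    sp (K := K) X (A ∪ B) = sp X A ⊔ sp X B := by
  unfold sp
  rw [Finset.coe_union, Set.image_union, span_union]

/-- The codimension of `G` in `U` is monotone in `U`. -/
theorem codim_mono {U' U : Submodule K Y} (h : U' ≤ U) (G : Submodule K Y) :
    (finrank K U' : ℝ) - finrank K ↥(U' ⊓ G) ≤ finrank K U - finrank K ↥(U ⊓ G) := by
  have h1 := Submodule.finrank_sup_add_finrank_inf_eq U' (U ⊓ G)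
  have h2 : U' ⊓ (U ⊓ G) = U' ⊓ G := by
    rw [← inf_assoc, inf_eq_left.2 h]
  rw [h2] at h1
  have h3 : finrank K ↥(U' ⊔ U ⊓ G) ≤ finrank K U :=
    Submodule.finrank_mono (sup_le h inf_le_left)
  have h4 : finrank K U' + finrank K ↥(U ⊓ G) ≤ finrank K U + finrank K ↥(U' ⊓ G) := by omega
  have h5 : (finrank K U' : ℝ) + finrank K ↥(U ⊓ G) ≤ finrank K U + finrank K ↥(U' ⊓ G) := by
    exact_mod_cast h4
  linarith

/-- One layer. -/
theorem one_step [Fintype E] [DecidableEq E] (X : E → Y) (F : Submodule K Y) (B : Finset E)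
    {p : ℝ} (hp : 0 ≤ p) (hp1 : p ≤ 1) :
    Ex (fun _ => p) (fun T => (finrank K ↥(sp (K := K) X B) : ℝ) -
      finrank K ↥(sp X B ⊓ (F ⊔ sp X (T ∩ B)))) ≤
      (1 - p) * ((finrank K ↥(sp (K := K) X B) : ℝ) - finrank K ↥(sp X B ⊓ F)) := by
  classical
  set U := sp (K := K) X B with hU
  obtain ⟨J, hJB, hJi, hJd, hJ⟩ := greedy X (U ⊓ F) (fun _ => 0) B
  have hr : IsRate (fun _ : E => p) := fun _ => ⟨hp, hp1⟩
  have h1 : finrank K U ≤ finrank K ↥(U ⊓ F) + J.card := by
    have h2 : U ≤ (U ⊓ F) ⊔ sp X J := by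
      refine span_le.2 ?_
      rintro _ ⟨e, he, rfl⟩
      have := hJ e he
      simp only [le_refl, and_true] at this
      exact this
    calc finrank K U ≤ finrank K ↥((U ⊓ F) ⊔ sp X J) := Submodule.finrank_mono h2
      _ ≤ finrank K ↥(U ⊓ F) + finrank K ↥(sp (K := K) X J) :=
        Submodule.finrank_add_le_finrank_add_finrank _ _
      _ = finrank K ↥(U ⊓ F) + J.card := by
        rw [show finrank K ↥(sp (K := K) X J) = J.card from finrank_span_of_indep hJi]
  have h2 : ∀ T : Finset E, finrank K ↥(U ⊓ F) + (T ∩ J).card ≤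
      finrank K ↥(U ⊓ (F ⊔ sp X (T ∩ B))) := by
    intro T
    have h3 : (U ⊓ F) ⊔ sp X (T ∩ J) ≤ U ⊓ (F ⊔ sp X (T ∩ B)) := by
      refine sup_le (inf_le_inf_left _ le_sup_left) (le_inf ?_ ?_)
      · exact sp_mono X (Finset.inter_subset_right.trans hJB)
      · exact (sp_mono X (Finset.inter_subset_inter_left hJB)).trans le_sup_right
    have h4 : LinearIndepOn K X ((T ∩ J : Finset E) : Set E) :=
      hJi.mono (Finset.coe_subset.2 Finset.inter_subset_right)
    have h5 : Disjoint (U ⊓ F) (sp X (T ∩ J)) :=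
      hJd.mono_right (sp_mono X Finset.inter_subset_right)
    have h6 := Submodule.finrank_sup_add_finrank_inf_eq (U ⊓ F) (sp X (T ∩ J))
    rw [disjoint_iff.1 h5, finrank_bot, add_zero,
      show finrank K ↥(sp (K := K) X (T ∩ J)) = (T ∩ J).card from finrank_span_of_indep h4] at h6
    rw [← h6]
    exact Submodule.finrank_mono h3
  have h3 : Ex (fun _ : E => p) (fun T => ((T ∩ J).card : ℝ)) = p * J.card := by
    have : ∀ T : Finset E, ((T ∩ J).card : ℝ) = ∑ e ∈ J, if e ∈ T then (1 : ℝ) else 0 := by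
      intro T
      rw [← Finset.sum_filter, Finset.sum_const, nsmul_eq_mul, mul_one]
      congr 2
      ext e
      simp [and_comm]
    rw [Ex_congr _ this, Ex_sum]
    simp only [Ex_mem]
    rw [Finset.sum_const, nsmul_eq_mul, mul_comm]
  calc Ex (fun _ => p) (fun T => (finrank K U : ℝ) - finrank K ↥(U ⊓ (F ⊔ sp X (T ∩ B))))
      ≤ Ex (fun _ => p) (fun T => ((finrank K U : ℝ) - finrank K ↥(U ⊓ F)) - (T ∩ J).card) := by
        refine Ex_mono hr fun T => ?_
        have := h2 T
        have h4 : ((finrank K ↥(U ⊓ F) : ℝ)) + (T ∩ J).card ≤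
          finrank K ↥(U ⊓ (F ⊔ sp X (T ∩ B))) := by exact_mod_cast this
        linarith
    _ = ((finrank K U : ℝ) - finrank K ↥(U ⊓ F)) - p * J.card := by
        rw [Ex_sub, Ex_const, h3]
    _ ≤ (1 - p) * ((finrank K U : ℝ) - finrank K ↥(U ⊓ F)) := by
        have h4 : (finrank K U : ℝ) - finrank K ↥(U ⊓ F) ≤ J.card := by
          have : (finrank K U : ℝ) ≤ finrank K ↥(U ⊓ F) + J.card := by exact_mod_cast h1
          linarith
        nlinarith [mul_le_mul_of_nonneg_left h4 hp]

/-- Several layers. -/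
theorem layers [Fintype E] [DecidableEq E] (X : E → Y) (B : ℕ → Finset E)
    (hd : ∀ s t, s ≠ t → Disjoint (B s) (B t))
    (hU : ∀ t, sp (K := K) X (B (t + 1)) ≤ sp X (B t)) {p : ℝ} (hp : 0 ≤ p) (hp1 : p ≤ 1)
    (L : ℕ) :
    Ex (fun _ => p) (fun R => (finrank K ↥(sp (K := K) X (B L)) : ℝ) -
      finrank K ↥(sp (K := K) X (B L) ⊓ sp X (R ∩ (Finset.range L).biUnion B))) ≤
      (1 - p) ^ L * finrank K ↥(sp (K := K) X (B 0)) := by
  classical
  have hr : IsRate (fun _ : E => p) := fun _ => ⟨hp, hp1⟩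
  induction L with
  | zero =>
    have : ∀ R : Finset E, (finrank K ↥(sp (K := K) X (B 0)) : ℝ) -
        finrank K ↥(sp (K := K) X (B 0) ⊓ sp X (R ∩ (Finset.range 0).biUnion B)) ≤
        finrank K ↥(sp (K := K) X (B 0)) := fun R => by
      have : (0 : ℝ) ≤ finrank K ↥(sp X (B 0) ⊓ sp (K := K) X (R ∩ (Finset.range 0).biUnion B)) :=
        Nat.cast_nonneg _
      linarith
    have h := Ex_le_of_le hr this
    simpa using h
  | succ L ih =>
    set P := (Finset.range L).biUnion B with hP
    have hPB : ∀ e, e ∈ B L → e ∉ P := by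
      intro e he heP
      rw [hP, Finset.mem_biUnion] at heP
      obtain ⟨t, ht, het⟩ := heP
      have hne : t ≠ L := (Finset.mem_range.1 ht).ne
      exact Finset.disjoint_left.1 (hd t L hne) het he
    have hsucc : (Finset.range (L + 1)).biUnion B = P ∪ B L := by
      rw [Finset.range_add_one, Finset.biUnion_insert, Finset.union_comm]
    have hmix : ∀ S T : Finset E, mix P S T ∩ (P ∪ B L) = (S ∩ P) ∪ (T ∩ B L) := by
      intro S T
      ext e
      have := hPB e
      simp only [Finset.mem_inter, Finset.mem_union, mem_mix]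
      tauto
    rw [← Ex_mix _ P]
    have hstep : ∀ S : Finset E,
        Ex (fun _ => p) (fun T => (finrank K ↥(sp (K := K) X (B (L + 1))) : ℝ) -
          finrank K ↥(sp (K := K) X (B (L + 1)) ⊓
            sp X (mix P S T ∩ (Finset.range (L + 1)).biUnion B))) ≤
        (1 - p) * ((finrank K ↥(sp (K := K) X (B L)) : ℝ) -
          finrank K ↥(sp (K := K) X (B L) ⊓ sp X (S ∩ P))) := by
      intro S
      refine le_trans (Ex_mono hr fun T => ?_) (one_step X (sp (K := K) X (S ∩ P)) (B L) hp hp1)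
      rw [hsucc, hmix, sp_union]
      exact codim_mono (hU L) _
    refine le_trans (Ex_mono hr hstep) ?_
    rw [Ex_mul_left, pow_succ, mul_comm ((1 - p) ^ L), mul_assoc]
    exact mul_le_mul_of_nonneg_left ih (by linarith)

/-- The probability that a vector of the span of the last layer is not spanned by the random part
of the layers before it. -/
theorem prob_notMem [Fintype E] [DecidableEq E] (X : E → Y) (B : ℕ → Finset E)
    (hd : ∀ s t, s ≠ t → Disjoint (B s) (B t))
    (hU : ∀ t, sp (K := K) X (B (t + 1)) ≤ sp X (B t)) {p : ℝ} (hp : 0 ≤ p) (hp1 : p ≤ 1)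
    (L : ℕ) (y : Y) (hy : y ∈ sp (K := K) X (B L)) [∀ R : Finset E,
      Decidable (y ∈ sp (K := K) X (R ∩ (Finset.range L).biUnion B))] :
    Ex (fun _ => p) (fun R => if y ∈ sp (K := K) X (R ∩ (Finset.range L).biUnion B) then 0 else 1) ≤
      (1 - p) ^ L * finrank K Y := by
  have hr : IsRate (fun _ : E => p) := fun _ => ⟨hp, hp1⟩
  refine le_trans (Ex_mono hr fun R => ?_) (le_trans (layers X B hd hU hp hp1 L) ?_)
  · have h1 : finrank K ↥(sp X (B L) ⊓ sp (K := K) X (R ∩ (Finset.range L).biUnion B)) ≤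
        finrank K ↥(sp (K := K) X (B L)) := Submodule.finrank_mono inf_le_left
    split_ifs with h
    · have : (finrank K ↥(sp X (B L) ⊓ sp (K := K) X (R ∩ (Finset.range L).biUnion B)) : ℝ) ≤
        finrank K ↥(sp (K := K) X (B L)) := by exact_mod_cast h1
      linarith
    · have h2 : finrank K ↥(sp X (B L) ⊓ sp (K := K) X (R ∩ (Finset.range L).biUnion B)) <
        finrank K ↥(sp (K := K) X (B L)) := by
        apply Submodule.finrank_lt_finrank_of_lt
        refine lt_of_le_of_ne inf_le_left fun h3 => h ?_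
        have h4 : y ∈ sp X (B L) ⊓ sp (K := K) X (R ∩ (Finset.range L).biUnion B) := by
          rw [h3]; exact hy
        exact h4.2
      have h3 : (finrank K ↥(sp X (B L) ⊓ sp (K := K) X (R ∩ (Finset.range L).biUnion B)) : ℝ) + 1 ≤
        finrank K ↥(sp (K := K) X (B L)) := by exact_mod_cast h2
      linarith
  · refine mul_le_mul_of_nonneg_left ?_ (pow_nonneg (by linarith) _)
    exact_mod_cast Submodule.finrank_le _

end Pool.Agent.Helper39.SR
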