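import Pool.Agent.Helper39.SR.Det
import Mathlib.Combinatorics.SetFamily.FourFunctions

/-!
# The sparsifier
-/

set_option autoImplicit false

namespace Pool.Agent.Helper39.SR

open Submodule Module Pool.Agent.Helper68.SP

section fkg

variable {E : Type} [Fintype E] [DecidableEq E]

/-- Increasing functions of the random set are positively correlated. -/
theorem Ex_fkg {p : ℝ} (hp : 0 ≤ p) (hp1 : p ≤ 1) {f g : Finset E → ℝ} (hf0 : ∀ S, 0 ≤ f S)
    (hg0 : ∀ S, 0 ≤ g S) (hf : ∀ S T, S ⊆ T → f S ≤ f T) (hg : ∀ S T, S ⊆ T → g S ≤ g T) :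
    Ex (fun _ => p) f * Ex (fun _ => p) g ≤ Ex (fun _ => p) (fun S => f S * g S) := by
  have hr : IsRate (fun _ : E => p) := fun _ => ⟨hp, hp1⟩
  have h := fkg (α := Finset E) (β := ℝ) (μ := wt (fun _ => p)) (f := f) (g := g)
    (fun S => wt_nonneg hr S) hf0 hg0 (fun S T h => hf S T h) (fun S T h => hg S T h) (by
      intro S T
      apply le_of_eq
      unfold wt
      rw [← Finset.prod_mul_distrib, ← Finset.prod_mul_distrib]
      refine Finset.prod_congr rfl fun e _ => ?_
      by_cases h1 : e ∈ S <;> by_cases h2 : e ∈ T <;> simp [h1, h2, mul_comm])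
  rw [sum_wt, one_mul] at h
  exact h

end fkg

/-- the optimum -/
noncomputable def optC {E : Type} (Com : Finset E → Prop) (w : E → ℝ) (A : Finset E) : ℝ :=
  sSup {t : ℝ | ∃ S : Finset E, S ⊆ A ∧ Com S ∧ t = ∑ e ∈ S, w e}

section opt

variable {E : Type} [Fintype E] {Com : Finset E → Prop} {w : E → ℝ}

theorem opt_bdd (A : Finset E) :
    BddAbove {t : ℝ | ∃ S : Finset E, S ⊆ A ∧ Com S ∧ t = ∑ e ∈ S, w e} := by
  classical
  have : ({t : ℝ | ∃ S : Finset E, S ⊆ A ∧ Com S ∧ t = ∑ e ∈ S, w e}).Finite := by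
    refine Set.Finite.subset (Set.finite_range fun S : Finset E => ∑ e ∈ S, w e) ?_
    rintro t ⟨S, -, -, rfl⟩
    exact ⟨S, rfl⟩
  exact this.bddAbove

theorem le_opt {A S : Finset E} (h1 : S ⊆ A) (h2 : Com S) : ∑ e ∈ S, w e ≤ optC Com w A :=
  le_csSup (opt_bdd A) ⟨S, h1, h2, rfl⟩

omit [Fintype E] in
theorem opt_le (h0 : Com ∅) {A : Finset E} {c : ℝ}
    (h : ∀ S : Finset E, S ⊆ A → Com S → ∑ e ∈ S, w e ≤ c) : optC Com w A ≤ c := by
  refine csSup_le ⟨_, ∅, Finset.empty_subset _, h0, rfl⟩ ?_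
  rintro t ⟨S, h1, h2, rfl⟩
  exact h S h1 h2

theorem opt_mono (h0 : Com ∅) {A B : Finset E} (h : A ⊆ B) : optC Com w A ≤ optC Com w B :=
  opt_le h0 fun _ h1 h2 => le_opt (h1.trans h) h2

theorem opt_nonneg (h0 : Com ∅) (A : Finset E) : 0 ≤ optC Com w A := by
  have := le_opt (w := w) (Finset.empty_subset A) h0
  simpa using this

end opt

/-- **The sparsifier**, over an infinite field, with `L` layers. -/
theorem main_inf {K : Type} [Field K] [Infinite K] {k r : ℕ} (hk : 1 ≤ k) {E : Type} [Fintype E]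
    [DecidableEq E] {D : Fin k → ℕ} (v : ∀ i, E → Fin (D i) → K)
    (hr : ∀ S : Finset E, (∀ i, LinearIndepOn K (v i) (S : Set E)) → S.card ≤ r)
    (w : E → ℝ) {p : ℝ} (hp : 0 ≤ p) (hp1 : p ≤ 1) (L : ℕ) :
    ∃ Q : Finset E, Q.card ≤ L * r ^ k ∧
      (1 - ((r : ℝ) ^ k) ^ 2 * (1 - p) ^ L) *
        Ex (fun _ => p) (optC (fun S => ∀ i, LinearIndepOn K (v i) (S : Set E)) w) ≤
      Ex (fun _ => p) (fun R =>
        optC (fun S => ∀ i, LinearIndepOn K (v i) (S : Set E)) w (Q ∩ R)) := by
  classical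
  have hrate : IsRate (fun _ : E => p) := fun _ => ⟨hp, hp1⟩
  have hproj : ∀ i, ∃ π : (Fin (D i) → K) →ₗ[K] (Fin r → K), ∀ S : Finset E, S.card ≤ r →
      LinearIndepOn K (v i) (S : Set E) → LinearIndepOn K (π ∘ v i) (S : Set E) :=
    fun i => exists_proj r _ _ (v i) rfl
  choose π hπ using hproj
  set X : E → ((Fin k → Fin r) → K) := tens (fun i e => π i (v i e)) with hX
  set Com : Finset E → Prop := fun S => ∀ i, LinearIndepOn K (v i) (S : Set E) with hCom
  have hC0 : Com ∅ := fun i => by simp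
  have hfin : finrank K ((Fin k → Fin r) → K) = r ^ k := by
    rw [Module.finrank_fintype_fun_eq_card]
    simp
  let Q : Finset E := (Finset.range L).biUnion (lay K X w)
  -- the good event
  let Gd : Finset E → Prop := fun R => ∀ b ∈ lay K X w L,
    X b ∈ sp (K := K) X (R ∩ (Finset.range L).biUnion
      (fun t => (lay K X w t).filter fun f => w b ≤ w f))
  have hGmono : ∀ R R', R ⊆ R' → Gd R → Gd R' := fun R R' h hG b hb =>
    sp_mono X (Finset.inter_subset_inter_right h) (hG b hb)
  have hprob : 1 - ((r : ℝ) ^ k) ^ 2 * (1 - p) ^ L ≤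
      Ex (fun _ => p) (fun R => if Gd R then (1 : ℝ) else 0) := by
    have h1 : ∀ R, (1 : ℝ) - ∑ b ∈ lay K X w L, (if X b ∈ sp (K := K) X (R ∩
        (Finset.range L).biUnion (fun t => (lay K X w t).filter fun f => w b ≤ w f))
        then (0 : ℝ) else 1) ≤ if Gd R then (1 : ℝ) else 0 := by
      intro R
      split_ifs with h
      · have : (0 : ℝ) ≤ ∑ b ∈ lay K X w L, (if X b ∈ sp (K := K) X (R ∩
          (Finset.range L).biUnion (fun t => (lay K X w t).filter fun f => w b ≤ w f))
          then (0 : ℝ) else 1) := Finset.sum_nonneg fun b _ => by split_ifs <;> norm_num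
        linarith
      · simp only [Gd, not_forall] at h
        obtain ⟨b, hb, hbn⟩ := h
        have : (if X b ∈ sp (K := K) X (R ∩
          (Finset.range L).biUnion (fun t => (lay K X w t).filter fun f => w b ≤ w f))
          then (0 : ℝ) else 1) ≤ ∑ b ∈ lay K X w L, (if X b ∈ sp (K := K) X (R ∩
          (Finset.range L).biUnion (fun t => (lay K X w t).filter fun f => w b ≤ w f))
          then (0 : ℝ) else 1) :=
          Finset.single_le_sum (f := fun b => (if X b ∈ sp (K := K) X (R ∩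
            (Finset.range L).biUnion (fun t => (lay K X w t).filter fun f => w b ≤ w f))
            then (0 : ℝ) else 1)) (fun b _ => by split_ifs <;> norm_num) hb
        rw [if_neg hbn] at this
        linarith
    refine le_trans ?_ (Ex_mono hrate h1)
    rw [Ex_sub, Ex_const, Ex_sum]
    have h2 : ∑ b ∈ lay K X w L, Ex (fun _ => p) (fun R => if X b ∈ sp (K := K) X (R ∩
        (Finset.range L).biUnion (fun t => (lay K X w t).filter fun f => w b ≤ w f))
        then (0 : ℝ) else 1) ≤ ((r : ℝ) ^ k) ^ 2 * (1 - p) ^ L := by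
      have h3 : ∀ b ∈ lay K X w L, Ex (fun _ => p) (fun R => if X b ∈ sp (K := K) X (R ∩
          (Finset.range L).biUnion (fun t => (lay K X w t).filter fun f => w b ≤ w f))
          then (0 : ℝ) else 1) ≤ (1 - p) ^ L * (r : ℝ) ^ k := by
        intro b hb
        have h4 := prob_notMem (K := K) X (fun t => (lay K X w t).filter fun f => w b ≤ w f)
          (fun s t hst => (lay_disj X w hst).mono (Finset.filter_subset _ _)
            (Finset.filter_subset _ _))
          (fun t => lay_step X w (w b) t) hp hp1 L (X b)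
          (subset_span ⟨b, by simpa using hb, rfl⟩)
        rw [hfin] at h4
        push_cast at h4
        exact h4
      refine le_trans (Finset.sum_le_sum h3) ?_
      rw [Finset.sum_const, nsmul_eq_mul]
      have h5 : ((lay K X w L).card : ℝ) ≤ (r : ℝ) ^ k := by
        have := card_lay_le (K := K) X w L
        rw [hfin] at this
        exact_mod_cast this
      have h6 : (0 : ℝ) ≤ (1 - p) ^ L * (r : ℝ) ^ k :=
        mul_nonneg (pow_nonneg (by linarith) _) (by positivity)
      calc ((lay K X w L).card : ℝ) * ((1 - p) ^ L * (r : ℝ) ^ k)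
          ≤ (r : ℝ) ^ k * ((1 - p) ^ L * (r : ℝ) ^ k) := mul_le_mul_of_nonneg_right h5 h6
        _ = ((r : ℝ) ^ k) ^ 2 * (1 - p) ^ L := by ring
    linarith
  -- on the good event nothing is lost
  have hgood : ∀ R, Gd R → optC Com w R ≤ optC Com w (Q ∩ R) := by
    intro R hG
    refine opt_le hC0 fun S hSR hS => ?_
    have h1 : ∀ e, e ∉ Q → X e ∈ span K (X '' {f | f ∈ Q ∩ R ∧ w e ≤ w f}) := by
      intro e he
      have h2 : e ∈ rest K X w L := (mem_rest X w).2 he
      have h3 := (gb_spec (K := K) X w (rest K X w L)).2.2 e h2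
      refine (span_le.2 ?_) h3
      rintro _ ⟨b, ⟨hb, hwb⟩, rfl⟩
      refine span_mono (Set.image_mono ?_) (hG b hb)
      intro f hf
      rw [Finset.mem_coe, Finset.mem_inter, Finset.mem_biUnion] at hf
      obtain ⟨hfR, t, ht, hft⟩ := hf
      rw [Finset.mem_filter] at hft
      exact ⟨Finset.mem_inter.2 ⟨Finset.mem_biUnion.2 ⟨t, ht, hft.1⟩, hfR⟩, hwb.trans hft.2⟩
    obtain ⟨S', hS'1, hS'2, hS'3⟩ := replace hk v π hπ hr w Q R h1 _ S rfl hSR hS
    exact hS'3.trans (le_opt hS'1 hS'2)
  refine ⟨Q, ?_, ?_⟩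
  · refine Finset.card_biUnion_le.trans ?_
    refine (Finset.sum_le_sum fun t _ => card_lay_le (K := K) X w t).trans ?_
    rw [Finset.sum_const, Finset.card_range, smul_eq_mul, hfin]
  · have h1 : 0 ≤ Ex (fun _ => p) (optC Com w) := Ex_nonneg hrate fun S => opt_nonneg hC0 S
    refine le_trans (mul_le_mul_of_nonneg_right hprob h1) ?_
    refine le_trans (Ex_fkg hp hp1 (fun S => by split_ifs <;> norm_num)
      (fun S => opt_nonneg hC0 S) ?_ fun S T h => opt_mono hC0 h) ?_
    · intro S T h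
      by_cases hS : Gd S
      · rw [if_pos hS, if_pos (hGmono S T h hS)]
      · rw [if_neg hS]
        split_ifs <;> norm_num
    · refine Ex_mono hrate fun R => ?_
      split_ifs with h
      · rw [one_mul]
        exact hgood R h
      · rw [zero_mul]
        exact opt_nonneg hC0 _

end Pool.Agent.Helper39.SR
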